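import Pool.Agent.helper40.TGS.CaseS4
import Pool.Agent.helper41.TGE.A2

set_option linter.all false
set_option autoImplicit false

/-!
# MP_ce98d8_co: section 10, case S: conclusion
-/

namespace Pool.Agent.helper40.TGS

open Finset Classical
open Pool.Agent.helper11.Tight (nb eo mem_nb)
open Pool.Agent.helper24.TG

variable {P O A V : Type} [Fintype P] [DecidableEq P] [Fintype O] [DecidableEq O]
  [Fintype A] [DecidableEq A] [AddCommGroup A] [Fintype V] [DecidableEq V]

variable {p : Par} {H : Host P O p.q} {v : O → A} {T : SimpleGraph V}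
  {MM : Finset (Finset V)} {φ : Fin p.C → P → V} {S : Fin p.C → Finset (P × A)} {c0 : Fin p.C}

theorem Et_nonneg (z : P × A) : 0 ≤ Et H v S c0 z := by unfold Et; positivity

/-- the exceptional copies of (Q4), counted -/
theorem card_bd4 (hPr : MPr p H v T MM φ) (hS : Ind p H v T φ S)
    (hE : ∀ i, 2 * (Est S c0 i).card ≤ p.c ^ 6 * p.q) {z : P × A} (hz : Proper H z) :
    64 * (((Finset.univ.erase c0).filter (fun j => bd4 p H v T φ z (p.hf j != p.hf c0)
      (Ep H v S c0 z (p.hf j != p.hf c0)) j)).card : ℝ) ≤ 2 * p.rho := by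
  have hq4 : ∀ i : Bool, (64 : ℝ) * ((Finset.univ.filter (fun j : Fin p.C =>
      bd4 p H v T φ z i (Ep H v S c0 z i) j)).card) ≤ p.rho := by
    intro i
    have h0 := hPr.q4 z i (Ep H v S c0 z i) hz (Ep_XA hS z i) (Ep_disj z i) (by
      have h1 : (Ep H v S c0 z i).card ≤ (Est S c0 i).card :=
        Finset.card_le_card Finset.sdiff_subset
      have h2 := hE i
      omega)
    refine le_trans (le_of_eq ?_) h0
    congr 3
    ext j
    rw [Finset.mem_filter, Finset.mem_filter]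
    exact Iff.rfl
  have h1 : (Finset.univ.erase c0).filter (fun j => bd4 p H v T φ z (p.hf j != p.hf c0)
      (Ep H v S c0 z (p.hf j != p.hf c0)) j) ⊆
      (Finset.univ.filter (fun j : Fin p.C =>
        bd4 p H v T φ z false (Ep H v S c0 z false) j)) ∪
      (Finset.univ.filter (fun j : Fin p.C =>
        bd4 p H v T φ z true (Ep H v S c0 z true) j)) := by
    intro j hj
    rw [Finset.mem_filter] at hj
    rw [Finset.mem_union, Finset.mem_filter, Finset.mem_filter]
    have h2 := hj.2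
    cases h3 : (p.hf j != p.hf c0)
    · rw [h3] at h2
      exact Or.inl ⟨Finset.mem_univ _, h2⟩
    · rw [h3] at h2
      exact Or.inr ⟨Finset.mem_univ _, h2⟩
  have h2 := le_trans (Finset.card_le_card h1) (Finset.card_union_le _ _)
  have h3 := hq4 false
  have h4 := hq4 true
  have h5 : (((Finset.univ.erase c0).filter (fun j => bd4 p H v T φ z (p.hf j != p.hf c0)
      (Ep H v S c0 z (p.hf j != p.hf c0)) j)).card : ℝ) ≤
      ((Finset.univ.filter (fun j : Fin p.C =>
        bd4 p H v T φ z false (Ep H v S c0 z false) j)).card : ℝ) +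
      ((Finset.univ.filter (fun j : Fin p.C =>
        bd4 p H v T φ z true (Ep H v S c0 z true) j)).card : ℝ) := by exact_mod_cast h2
  linarith

theorem sum_if_const {ι : Type} (J : Finset ι) (Q : ι → Prop) [DecidablePred Q] (x : ℝ) :
    ∑ j ∈ J, (if Q j then x else 0) = ((J.filter Q).card : ℝ) * x := by
  rw [← Finset.sum_filter, Finset.sum_const, nsmul_eq_mul]

/-- inequality (A6) -/
theorem ineqA6 (hPr : MPr p H v T MM φ) (hS : Ind p H v T φ S)
    (hE : ∀ i, 2 * (Est S c0 i).card ≤ p.c ^ 6 * p.q) {M : Finset V} (hMM : M ∈ MM)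
    {z : P × A} (hz : Proper H z) (hz0 : z ∉ S c0)
    (hfull : ∀ j, j ≠ c0 → Fl p H v T φ S c0 j → p.c ^ 4 * (eS H v S c0 z j).card ≤ p.q)
    (hF : (((Finset.univ.erase c0).filter (fun j => ¬ Fl p H v T φ S c0 j)).card : ℝ) ≤
        2 * p.C / p.c) :
    (1 + 1 / (p.c : ℝ) ^ 4) * ((∑ j ∈ Finset.univ.erase c0, ((eS H v S c0 z j).card : ℝ)) +
      ((S c0 ∩ labS A (φ c0) M ∩ Ball H v z).card : ℝ)) ≤
      (∑ j ∈ Finset.univ.erase c0, ((rS H v S c0 z j).card : ℝ)) +
        (1 / 4) * p.rho * Et H v S c0 z := by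
  have hcpos := n_cpos p
  have hc := n_c p
  have hc1 := n_c1 p
  have hρ := n_rho_pos p
  have hEt := Et_nonneg (H := H) (v := v) (S := S) (c0 := c0) z
  have hQM := QM_bound hPr hS hMM hz0 hF
  have hbad := card_bad hPr hS (c0 := c0) (fun i => by have := hE i; omega)
  have hb4 := card_bd4 hPr hS hE hz
  -- sum of the inequalities
  have hsum : ∑ j ∈ Finset.univ.erase c0,
      ((1 + 1 / (p.c : ℝ) ^ 4) * ((eS H v S c0 z j).card : ℝ)) ≤
      ∑ j ∈ Finset.univ.erase c0,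
      ((if Fl p H v T φ S c0 j then (1 / 2 : ℝ) * ((rS H v S c0 z j).card : ℝ)
        else ((rS H v S c0 z j).card : ℝ)) +
      (if ¬ Gd p H v T φ S c0 j then 2 * Et H v S c0 z else 0) +
      (if bd4 p H v T φ z (p.hf j != p.hf c0) (Ep H v S c0 z (p.hf j != p.hf c0)) j
        then 2 * Et H v S c0 z else 0) +
      2 * Et H v S c0 z / (64 * (p.c : ℝ) ^ 3)) := by
    apply Finset.sum_le_sum
    intro j hj
    exact one_copy hS hz hfull (Finset.ne_of_mem_erase hj)
  rw [← Finset.mul_sum, Finset.sum_add_distrib, Finset.sum_add_distrib, Finset.sum_add_distrib,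
    sum_if_const, sum_if_const, Finset.sum_const, nsmul_eq_mul] at hsum
  -- first sum
  have h1 : ∑ j ∈ Finset.univ.erase c0, (if Fl p H v T φ S c0 j
      then (1 / 2 : ℝ) * ((rS H v S c0 z j).card : ℝ) else ((rS H v S c0 z j).card : ℝ)) +
      ∑ j ∈ (Finset.univ.erase c0).filter (Fl p H v T φ S c0),
        (1 / 2 : ℝ) * ((rS H v S c0 z j).card : ℝ) =
      ∑ j ∈ Finset.univ.erase c0, ((rS H v S c0 z j).card : ℝ) := by
    rw [Finset.sum_filter, ← Finset.sum_add_distrib]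
    apply Finset.sum_congr rfl
    intro j _
    split_ifs
    · ring
    · ring
  -- the three small terms
  have h2 : (((Finset.univ.erase c0).filter (fun j => ¬ Gd p H v T φ S c0 j)).card : ℝ) *
      (2 * Et H v S c0 z) ≤ (1 / 16) * p.rho * Et H v S c0 z := by
    have h3 := n_rho' p (i := 13) (j := 1) (by norm_num) (by norm_num)
    have hB := n_Bpos p
    have h4 : 64 * ((p.c : ℝ) ^ 12 * p.B) ≤ p.rho := by
      calc 64 * ((p.c : ℝ) ^ 12 * p.B) ≤ p.c * ((p.c : ℝ) ^ 12 * p.B) := by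
            apply mul_le_mul_of_nonneg_right (le_trans (by norm_num) hc)
            positivity
        _ = (p.c : ℝ) ^ 13 * (p.B : ℝ) ^ 1 := by ring
        _ ≤ p.rho := h3
    calc (((Finset.univ.erase c0).filter (fun j => ¬ Gd p H v T φ S c0 j)).card : ℝ) *
      (2 * Et H v S c0 z) ≤ (2 * ((p.c : ℝ) ^ 12 * p.B)) * (2 * Et H v S c0 z) :=
          mul_le_mul_of_nonneg_right hbad (by positivity)
      _ = (1 / 16) * (64 * ((p.c : ℝ) ^ 12 * p.B)) * Et H v S c0 z := by ring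
      _ ≤ (1 / 16) * p.rho * Et H v S c0 z := by
          apply mul_le_mul_of_nonneg_right _ hEt
          linarith
  have h3 : (((Finset.univ.erase c0).filter (fun j => bd4 p H v T φ z (p.hf j != p.hf c0)
      (Ep H v S c0 z (p.hf j != p.hf c0)) j)).card : ℝ) * (2 * Et H v S c0 z) ≤
      (1 / 16) * p.rho * Et H v S c0 z := by
    calc (((Finset.univ.erase c0).filter (fun j => bd4 p H v T φ z (p.hf j != p.hf c0)
      (Ep H v S c0 z (p.hf j != p.hf c0)) j)).card : ℝ) * (2 * Et H v S c0 z) ≤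
        (1 / 32 * p.rho) * (2 * Et H v S c0 z) := by
          apply mul_le_mul_of_nonneg_right _ (by positivity)
          linarith
      _ = (1 / 16) * p.rho * Et H v S c0 z := by ring
  have h4 : ((Finset.univ.erase c0).card : ℝ) * (2 * Et H v S c0 z / (64 * (p.c : ℝ) ^ 3)) ≤
      (1 / 16) * p.rho * Et H v S c0 z := by
    have h5 : ((Finset.univ.erase c0).card : ℝ) ≤ p.C := by
      have : (Finset.univ.erase c0).card ≤ p.C := by
        rw [Finset.card_erase_of_mem (Finset.mem_univ _), Finset.card_univ, Fintype.card_fin]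
        exact Nat.sub_le _ _
      exact_mod_cast this
    have hC2 := n_C2 p
    have hc3 : (0 : ℝ) < (p.c : ℝ) ^ 3 := pow_pos hcpos 3
    calc ((Finset.univ.erase c0).card : ℝ) * (2 * Et H v S c0 z / (64 * (p.c : ℝ) ^ 3)) ≤
        (2 * (p.c : ℝ) ^ 3 * p.rho) * (2 * Et H v S c0 z / (64 * (p.c : ℝ) ^ 3)) :=
          mul_le_mul_of_nonneg_right (le_trans h5 hC2) (by positivity)
      _ = (1 / 16) * p.rho * Et H v S c0 z := by
          rw [mul_div_assoc', div_eq_iff (by positivity)]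
          ring
  have h5 : (1 + 1 / (p.c : ℝ) ^ 4) * ((∑ j ∈ Finset.univ.erase c0,
      ((eS H v S c0 z j).card : ℝ)) + ((S c0 ∩ labS A (φ c0) M ∩ Ball H v z).card : ℝ)) =
      (1 + 1 / (p.c : ℝ) ^ 4) * (∑ j ∈ Finset.univ.erase c0, ((eS H v S c0 z j).card : ℝ)) +
      (1 + 1 / (p.c : ℝ) ^ 4) * ((S c0 ∩ labS A (φ c0) M ∩ Ball H v z).card : ℝ) := by ring
  have h6 : (0 : ℝ) ≤ (1 / 16) * p.rho * Et H v S c0 z := by positivity
  have h7 : (1 / 4 : ℝ) * p.rho * Et H v S c0 z = (1 / 16) * p.rho * Et H v S c0 z +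
    (1 / 16) * p.rho * Et H v S c0 z + (1 / 16) * p.rho * Et H v S c0 z +
    (1 / 16) * p.rho * Et H v S c0 z := by ring
  linarith

/-- case S-b-2 -/
theorem caseSb2 (hPr : MPr p H v T MM φ) (hS : Ind p H v T φ S)
    (hE : ∀ i, 2 * (Est S c0 i).card ≤ p.c ^ 6 * p.q)
    {U M : Finset V} (hMM : M ∈ MM) (hMd : M.card = p.d) {del : ℕ} (hU : U.card + del = p.d)
    (hUM : (U \ M).card ≤ p.K * del)
    {z : P × A} (hz : Proper H z) (hz0 : z ∉ S c0)
    (hfull : ∀ j, j ≠ c0 → Fl p H v T φ S c0 j → p.c ^ 4 * (eS H v S c0 z j).card ≤ p.q)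
    (hF : (((Finset.univ.erase c0).filter (fun j => ¬ Fl p H v T φ S c0 j)).card : ℝ) ≤
        2 * p.C / p.c) : A2 p H v φ S c0 U M del z := by
  have hcpos := n_cpos p
  have hc := n_c p
  have hc1 := n_c1 p
  have hρ := n_rho_pos p
  have hwpos := n_wpos p
  have hA6 := ineqA6 hPr hS hE hMM hz hz0 hfull hF
  have hP := hPr.one c0
  have hB0 := stepB hP hS hE hMM hMd hU hUM z false
  have hB1 := stepB hP hS hE hMM hMd hU hUM z true
  have hA := stepA hS hP.bal U M z
  have hEt : Et H v S c0 z = ((Ep H v S c0 z false).card : ℝ) +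
    ((Ep H v S c0 z true).card : ℝ) := rfl
  have hB : (1 / 4 : ℝ) * p.rho * Et H v S c0 z ≤
      ((Rout H v φ S c0 U z).card : ℝ) + (1 / 4) * (p.B * p.w * del) := by
    rw [hEt]
    have : (1 / 4 : ℝ) * p.rho * (((Ep H v S c0 z false).card : ℝ) +
      ((Ep H v S c0 z true).card : ℝ)) = (1 / 2) * ((1 / 2 : ℝ) * p.rho *
        ((Ep H v S c0 z false).card : ℝ)) + (1 / 2) * ((1 / 2 : ℝ) * p.rho *
        ((Ep H v S c0 z true).card : ℝ)) := by ring
    rw [this]
    linarith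
  -- the other slices
  have hOther : ∑ j ∈ Finset.univ.erase c0, ((S j).card : ℝ) =
      p.q * ((p.C : ℝ) - 1) - (∑ j ∈ Finset.univ.erase c0, ((rS H v S c0 z j).card : ℝ)) +
        ∑ j ∈ Finset.univ.erase c0, ((eS H v S c0 z j).card : ℝ) := by
    have h1 : ∑ j ∈ Finset.univ.erase c0, ((S j).card : ℝ) =
        ∑ j ∈ Finset.univ.erase c0, (p.q - ((rS H v S c0 z j).card : ℝ) +
          ((eS H v S c0 z j).card : ℝ)) := by
      apply Finset.sum_congr rfl
      intro j _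
      exact slice_eq hS hz j
    rw [h1, Finset.sum_add_distrib, Finset.sum_sub_distrib, Finset.sum_const, nsmul_eq_mul,
      Finset.card_erase_of_mem (Finset.mem_univ _), Finset.card_univ, Fintype.card_fin]
    have : 1 ≤ p.C := by
      have h := c0.2
      omega
    rw [Nat.cast_sub this]
    push_cast
    ring
  have hUM' : ((U \ M).card : ℝ) ≤ (p.K : ℝ) * del := by exact_mod_cast hUM
  have hU' : (U.card : ℝ) + del = p.d := by exact_mod_cast hU
  have h1 : (p.w : ℝ) * ((U \ M).card : ℝ) ≤ p.w * ((p.K : ℝ) * del) :=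
    mul_le_mul_of_nonneg_left hUM' hwpos.le
  have h2 : (p.w : ℝ) * U.card = p.w * p.d - p.w * del := by rw [← hU']; ring
  have h3 : (p.w : ℝ) * ((p.K : ℝ) * del) + p.w * del ≤ (1 / 12) * (p.B * p.w * del) := by
    have hBK := n_BK p
    have hK0 := n_K0 p
    have h7 : (p.K : ℝ) + 1 ≤ (1 / 12) * p.B := by
      have h8 : (12 : ℝ) ≤ (p.c : ℝ) ^ 15 := by
        calc (12 : ℝ) ≤ p.c := le_trans (by norm_num) hc
          _ = (p.c : ℝ) ^ 1 := (pow_one _).symm
          _ ≤ (p.c : ℝ) ^ 15 := pow_le_pow_right₀ (n_c1 p) (by norm_num)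
      nlinarith
    have h9 : ((p.K : ℝ) + 1) * ((p.w : ℝ) * (del : ℝ)) ≤
        ((1 / 12) * (p.B : ℝ)) * ((p.w : ℝ) * (del : ℝ)) :=
      mul_le_mul_of_nonneg_right h7 (by positivity)
    have e1 : ((p.K : ℝ) + 1) * ((p.w : ℝ) * (del : ℝ)) =
        (p.w : ℝ) * ((p.K : ℝ) * del) + p.w * del := by ring
    have e2 : ((1 / 12) * (p.B : ℝ)) * ((p.w : ℝ) * (del : ℝ)) =
        (1 / 12) * (p.B * p.w * del) := by ring
    linarith
  unfold A2
  have hEE : ∑ j ∈ Finset.univ.erase c0, ((S j \ Nb H v (p.hf j != p.hf c0) z).card : ℝ) =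
      ∑ j ∈ Finset.univ.erase c0, ((eS H v S c0 z j).card : ℝ) := rfl
  rw [hEE, hOther]
  set EE := ∑ j ∈ Finset.univ.erase c0, ((eS H v S c0 z j).card : ℝ) with hEEd
  set RR := ∑ j ∈ Finset.univ.erase c0, ((rS H v S c0 z j).card : ℝ) with hRR
  set QQ := ((S c0 ∩ labS A (φ c0) M ∩ Ball H v z).card : ℝ) with hQQ
  have e1 : (1 + 1 / (p.c : ℝ) ^ 4) * (EE + QQ) =
      EE + QQ + (1 / (p.c : ℝ) ^ 4) * (QQ + EE) := by ring
  have e2 : (1 / 3 : ℝ) * p.B * p.w * del = (1 / 4) * (p.B * p.w * del) +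
      (1 / 12) * (p.B * p.w * del) := by ring
  rw [e1] at hA6
  rw [e2]
  linarith

/-- a full copy is close to a lifted line -/
theorem full_line (hS : Ind p H v T φ S) {j : Fin p.C} (hj : j ≠ c0)
    (hF : Fl p H v T φ S c0 j) : ∃ z : P × A,
      p.c ^ 4 * (eS H v S c0 z j).card ≤ p.q ∧
      (p.q : ℝ) - 2 * p.q / p.c ≤ ((S j ∩ Nb H v (p.hf j != p.hf c0) z).card : ℝ) ∧
      H.pi (p.hf j != p.hf c0) z.1 ≠ H.linf := by
  have hcpos := n_cpos p
  have hc := n_c p
  have hc1 := n_c1 p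
  have hq := n_qpos p
  obtain ⟨hG, hF2⟩ := hF
  have hqc : (p.q : ℝ) / p.c ≤ p.q / 4 := by
    apply div_le_div_of_nonneg_left hq.le (by norm_num)
    linarith
  have h8 : p.q ≤ 8 * (S j).card := by
    have : (p.q : ℝ) ≤ 8 * ((S j).card : ℝ) := by linarith
    exact_mod_cast this
  obtain ⟨L, hL⟩ := hG (S j) (sub_Est hj) (hS.own j) h8
  have hNb : Nb H v (p.hf j != p.hf c0) (cen H (p.hf j != p.hf c0) L) = lin H v L := by
    unfold Nb
    rw [NL_cen]
  refine ⟨cen H (p.hf j != p.hf c0) L, ?_, ?_, ?_⟩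
  · unfold eS
    rw [hNb]
    exact hL
  · rw [hNb]
    have h1 := Finset.card_sdiff_add_card_inter (S j) (lin H v L)
    have h2 : ((S j \ lin H v L).card : ℝ) + ((S j ∩ lin H v L).card : ℝ) =
        ((S j).card : ℝ) := by exact_mod_cast h1
    have h3 : (p.c : ℝ) ^ 4 * ((S j \ lin H v L).card : ℝ) ≤ p.q := by exact_mod_cast hL
    have h4 : ((S j \ lin H v L).card : ℝ) ≤ p.q / p.c := by
      rw [le_div_iff₀ hcpos]
      have h5 : (p.c : ℝ) ≤ (p.c : ℝ) ^ 4 := by
        calc (p.c : ℝ) = (p.c : ℝ) ^ 1 := (pow_one _).symm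
          _ ≤ (p.c : ℝ) ^ 4 := pow_le_pow_right₀ hc1 (by norm_num)
      have h6 : (0 : ℝ) ≤ ((S j \ lin H v L).card : ℝ) := by positivity
      nlinarith
    have e : 2 * (p.q : ℝ) / p.c = p.q / p.c + p.q / p.c := by ring
    rw [e]
    linarith
  · intro hcon
    have h1 : (cen H (p.hf j != p.hf c0) L).1 = H.pi (p.hf j != p.hf c0) L.1 := rfl
    rw [h1, H.pi_pi] at hcon
    have h2 := card_split (S j) (lin H v L) (XA A H) (hS.sub j)
    rw [lin_XA_linf hcon, Finset.card_empty, add_zero] at h2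
    have h3 : (p.c : ℝ) ^ 4 * ((S j \ lin H v L).card : ℝ) ≤ p.q := by exact_mod_cast hL
    have h4 : ((S j).card : ℝ) ≤ ((S j \ lin H v L).card : ℝ) := by exact_mod_cast h2
    have h5 : (8 : ℝ) * ((S j \ lin H v L).card : ℝ) < p.q := by
      have h6 : (p.q : ℝ) / 4 * 3 < ((S j \ lin H v L).card : ℝ) := by linarith
      have h7 : (16 : ℝ) ≤ (p.c : ℝ) ^ 4 := by
        calc (16 : ℝ) ≤ p.c := le_trans (by norm_num) hc
          _ = (p.c : ℝ) ^ 1 := (pow_one _).symm
          _ ≤ (p.c : ℝ) ^ 4 := pow_le_pow_right₀ hc1 (by norm_num)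
      have h8' : (0 : ℝ) ≤ ((S j \ lin H v L).card : ℝ) := by positivity
      nlinarith
    have h9 : (p.q : ℝ) ≤ 8 * ((S j).card : ℝ) := by exact_mod_cast h8
    linarith

/-- case S, all together -/
theorem caseS' (hPr : MPr p H v T MM φ) (hS : Ind p H v T φ S)
    (hE : ∀ i, 2 * (Est S c0 i).card ≤ p.c ^ 6 * p.q)
    {U M : Finset V} (hMM : M ∈ MM) (hMd : M.card = p.d) {del : ℕ} (hU : U.card + del = p.d)
    (hUM : (U \ M).card ≤ p.K * del) : ∃ z, Proper H z ∧ A2 p H v φ S c0 U M del z := by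
  have hwd := n_wd_pos p
  obtain ⟨hlow, hdich⟩ := dich hPr hS (c0 := c0) (fun i => by have := hE i; omega)
  obtain ⟨z0, hz0⟩ := exists_proper (A := A) H
  rcases hdich with hdich | hF
  · refine ⟨z0, hz0, ?_⟩
    apply A2_of hS (hPr.one c0).bal hMd z0
    · linarith
    · have h1 : (0 : ℝ) ≤ (((XA A H ∩ labS A (φ c0) U) \ S c0).card : ℝ) := by positivity
      have h2 : (0 : ℝ) ≤ (1 / 3) * p.B * p.w * del := by positivity
      linarith
  · -- full copies of both polarities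
    have hexi : ∀ i : Bool, ∃ j, j ≠ c0 ∧ (p.hf j != p.hf c0) = i ∧ Fl p H v T φ S c0 j := by
      intro i
      have h1 := card_full (H := H) (v := v) (T := T) (φ := φ) (S := S) i hF
      have h2 : 0 < ((Finset.univ.erase c0).filter
          (fun j => (p.hf j != p.hf c0) = i ∧ Fl p H v T φ S c0 j)).card := by
        have h3 := n_Cpos p
        have : (0 : ℝ) < (((Finset.univ.erase c0).filter
          (fun j => (p.hf j != p.hf c0) = i ∧ Fl p H v T φ S c0 j)).card : ℝ) := by linarith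
        exact_mod_cast this
      obtain ⟨j, hj⟩ := Finset.card_pos.1 h2
      rw [Finset.mem_filter, Finset.mem_erase] at hj
      exact ⟨j, hj.1.1, hj.2.1, hj.2.2⟩
    obtain ⟨ja, hja, hia, hFa⟩ := hexi false
    obtain ⟨jb, hjb, hib, hFb⟩ := hexi true
    obtain ⟨z, hz1, hz2, hz3⟩ := full_line hS hja hFa
    by_cases hall : ∀ j, j ≠ c0 → Fl p H v T φ S c0 j →
        p.c ^ 4 * (eS H v S c0 z j).card ≤ p.q ∧
        (p.q : ℝ) - 2 * p.q / p.c ≤ ((S j ∩ Nb H v (p.hf j != p.hf c0) z).card : ℝ) ∧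
        H.pi (p.hf j != p.hf c0) z.1 ≠ H.linf
    · have hzP : Proper H z := by
        intro i
        cases i
        · rw [← hia]; exact hz3
        · rw [← hib]; exact (hall jb hjb hFb).2.2
      have hzS : z ∉ S c0 := by
        have h1 : (0 : ℝ) < ((S ja ∩ Nb H v (p.hf ja != p.hf c0) z).card : ℝ) := by
          refine lt_of_lt_of_le ?_ hz2
          have hq := n_qpos p
          have hc := n_c p
          have hcpos := n_cpos p
          rw [sub_pos, div_lt_iff₀ hcpos]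
          nlinarith
        have h2 : 0 < (S ja ∩ Nb H v (p.hf ja != p.hf c0) z).card := by exact_mod_cast h1
        obtain ⟨y, hy⟩ := Finset.card_pos.1 h2
        rw [Finset.mem_inter] at hy
        exact Nb_disj hS hja hy.1 ((mem_Nb_comm H v _ z y).1 hy.2)
      exact ⟨z, hzP, caseSb2 hPr hS hE hMM hMd hU hUM hzP hzS
        (fun j hj hFj => (hall j hj hFj).1) hF⟩
    · push Not at hall
      obtain ⟨j2, hj2, hF2, hne⟩ := hall
      obtain ⟨z2, h21, h22, h23⟩ := full_line hS hj2 hF2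
      have hzz : z ≠ z2 := by
        rintro rfl
        exact h23 (hne h21 h22)
      exact ⟨z0, hz0, caseSb1 hPr hS hMM hMd hU hUM hlow hja hj2 hzz hz2 h22 z0⟩

theorem Est_eq_ES (S : Fin p.C → Finset (P × A)) (c0 : Fin p.C) (i : Bool) :
    Est S c0 i = Pool.Agent.helper41.TGE.ES p S c0 i := by
  ext x
  rw [mem_Est, Pool.Agent.helper41.TGE.mem_ES]
  constructor
  · rintro ⟨j, a, b, c⟩
    exact ⟨j, ⟨a, b⟩, c⟩
  · rintro ⟨j, ⟨a, b⟩, c⟩
    exact ⟨j, a, b, c⟩

/-- case S in the notation of helper41 -/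
theorem caseS (hPr : MPr p H v T MM φ) (hS : Ind p H v T φ S) (hT : TSp p T MM)
    (U M : Finset V) (hMM : M ∈ MM) (hU : U.card ≤ p.d)
    (hUM : (U \ M).card ≤ p.K * (p.d - U.card))
    (hE : ∀ i, 2 * (Pool.Agent.helper41.TGE.ES p S c0 i).card ≤ p.c ^ 6 * p.q) :
    ∃ z, Proper H z ∧ Pool.Agent.helper41.TGE.A2 p H v φ S c0 U M z := by
  obtain ⟨z, hz, h⟩ := caseS' (c0 := c0) (U := U) (M := M) (del := p.d - U.card) hPr hS
    (fun i => by rw [Est_eq_ES]; exact hE i) hMM (hT.card_M M hMM)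
    (Nat.add_sub_of_le hU) hUM
  refine ⟨z, hz, ?_⟩
  unfold A2 at h
  unfold Pool.Agent.helper41.TGE.A2 Pool.Agent.helper41.TGE.Other Pool.Agent.helper41.TGE.QM
    Pool.Agent.helper41.TGE.EE Pool.Agent.helper41.TGE.RU
  rw [Nat.cast_sub hU] at h
  have e : (1 / 3 : ℝ) * (p.B * p.w * (p.d - U.card)) =
      (1 / 3) * p.B * p.w * ((p.d : ℝ) - U.card) := by ring
  rw [e]
  exact h

end Pool.Agent.helper40.TGS
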