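import Pool.Agent.helper24.TG.Defs

set_option linter.all false
set_option autoImplicit false

/-!
# MP_ce98d8_co: consequences of the numeric conditions (real form)
-/

namespace Pool.Agent.helper40.TGS

open Pool.Agent.helper24.TG

variable (p : Par)

theorem n_c : (10 : ℝ) ^ 6 ≤ p.c := by
  have h1 := p.hLog
  have h2 := p.hLam
  have : 10 ^ 6 ≤ p.c := by
    calc 10 ^ 6 = 10 ^ 6 * 1 := by norm_num
      _ ≤ 10 ^ 6 * p.Lam := Nat.mul_le_mul_left _ h2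
      _ ≤ p.c := h1
  exact_mod_cast this

theorem n_cpos : (0 : ℝ) < p.c := lt_of_lt_of_le (by norm_num) (n_c p)

theorem n_c1 : (1 : ℝ) ≤ p.c := le_trans (by norm_num) (n_c p)

theorem n_Lam : (10 : ℝ) ^ 6 * p.Lam ≤ p.c := by
  exact_mod_cast p.hLog

theorem n_B : (p.c : ℝ) ^ 200 ≤ p.B := by exact_mod_cast p.N7

theorem n_Bpos : (0 : ℝ) < p.B := lt_of_lt_of_le (pow_pos (n_cpos p) _) (n_B p)

theorem n_B1 : (1 : ℝ) ≤ p.B := le_trans (one_le_pow₀ (n_c1 p)) (n_B p)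

theorem n_N : (1 : ℝ) ≤ p.N := by exact_mod_cast p.hN

theorem n_Npos : (0 : ℝ) < p.N := lt_of_lt_of_le one_pos (n_N p)

theorem n_d : (1 : ℝ) ≤ p.d := by
  have := p.hd
  have h : 1 ≤ p.d := by omega
  exact_mod_cast h

theorem n_rho_ge : ((p.c : ℝ) * p.B) ^ 100 * (p.L * (p.K + 1)) ≤ p.rho := by
  unfold Par.rho
  rw [le_div_iff₀ (n_Npos p)]
  have := p.N2
  have h : (((p.c * p.B) ^ 100 * p.L * (p.K + 1) * p.N : ℕ) : ℝ) ≤ ((p.q * p.d : ℕ) : ℝ) := by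
    exact_mod_cast this
  push_cast at h
  linarith

theorem n_cB1 : (1 : ℝ) ≤ (p.c : ℝ) * p.B := by
  have h1 := n_c1 p
  have h2 := n_B1 p
  nlinarith

theorem n_LK : (1 : ℝ) ≤ p.L * (p.K + 1) := by
  have h1 : (1 : ℝ) ≤ p.L := by exact_mod_cast p.hL
  have h2 : (0 : ℝ) ≤ p.K := by positivity
  nlinarith

theorem n_rho : ((p.c : ℝ) * p.B) ^ 100 ≤ p.rho := by
  refine le_trans ?_ (n_rho_ge p)
  have h1 : (0 : ℝ) ≤ ((p.c : ℝ) * p.B) ^ 100 := pow_nonneg (le_trans zero_le_one (n_cB1 p)) _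
  have h2 := n_LK p
  nlinarith

theorem n_rho_pos : (0 : ℝ) < p.rho :=
  lt_of_lt_of_le (pow_pos (lt_of_lt_of_le one_pos (n_cB1 p)) _) (n_rho p)

/-- a convenient form: `c^i B^j ≤ ρ` for `i, j ≤ 100` -/
theorem n_rho' {i j : ℕ} (hi : i ≤ 100) (hj : j ≤ 100) : (p.c : ℝ) ^ i * (p.B : ℝ) ^ j ≤ p.rho := by
  refine le_trans ?_ (n_rho p)
  rw [mul_pow]
  apply mul_le_mul
  · exact pow_le_pow_right₀ (n_c1 p) hi
  · exact pow_le_pow_right₀ (n_B1 p) hj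
  · exact pow_nonneg (n_Bpos p).le _
  · exact pow_nonneg (n_cpos p).le _

theorem n_wd : (p.w : ℝ) * p.d = p.q * p.rho := by
  unfold Par.rho
  have h := p.hw
  have h1 : ((p.q ^ 2 : ℕ) : ℝ) = ((p.w * p.N : ℕ) : ℝ) := by rw [h]
  push_cast at h1
  have h2 := (n_Npos p).ne'
  field_simp
  have : (p.w : ℝ) * p.N = p.q ^ 2 := h1.symm
  calc (p.w : ℝ) * p.d * p.N = (p.w * p.N) * p.d := by ring
    _ = p.q ^ 2 * p.d := by rw [this]
    _ = p.d * p.q ^ 2 := by ring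

theorem n_w : (p.w : ℝ) = p.q ^ 2 / p.N := by
  have h := p.hw
  have h1 : ((p.q ^ 2 : ℕ) : ℝ) = ((p.w * p.N : ℕ) : ℝ) := by rw [h]
  push_cast at h1
  rw [eq_div_iff (n_Npos p).ne']
  exact h1.symm

theorem n_C1 : (p.c : ℝ) ^ 3 * p.rho ≤ p.C := by
  unfold Par.rho
  rw [← mul_div_assoc, div_le_iff₀ (n_Npos p)]
  have h : ((p.c ^ 3 * p.q * p.d : ℕ) : ℝ) ≤ ((p.C * p.N : ℕ) : ℝ) := by exact_mod_cast p.hC1
  push_cast at h
  linarith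

theorem n_C2 : (p.C : ℝ) ≤ 2 * p.c ^ 3 * p.rho := by
  unfold Par.rho
  rw [← mul_div_assoc, le_div_iff₀ (n_Npos p)]
  have h : ((p.C * p.N : ℕ) : ℝ) ≤ ((2 * p.c ^ 3 * p.q * p.d : ℕ) : ℝ) := by exact_mod_cast p.hC2
  push_cast at h
  linarith

theorem n_K : (p.K : ℝ) + 1 ≤ p.c ^ p.kT := by exact_mod_cast p.hK

theorem n_K0 : (0 : ℝ) ≤ p.K := by positivity

/-- `c^15 (K+1) ≤ B` -/
theorem n_BK : (p.c : ℝ) ^ 15 * (p.K + 1) ≤ p.B := by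
  have h1 : ((p.c ^ (p.kT + 15) : ℕ) : ℝ) ≤ p.B := by exact_mod_cast p.N7'
  push_cast at h1
  refine le_trans ?_ h1
  rw [pow_add, mul_comm]
  exact mul_le_mul_of_nonneg_right (n_K p) (pow_nonneg (n_cpos p).le _)

/-- `c^10 (K+1) ≤ w` -/
theorem n_wK : (p.c : ℝ) ^ 10 * (p.K + 1) ≤ p.w := by exact_mod_cast p.N1

theorem n_q : (1 : ℝ) ≤ p.q := by
  have h1 : 1 ≤ p.q := by
    have := p.N4
    have h2 : 0 < p.c := by
      have := n_cpos p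
      exact_mod_cast this
    have h3 : 0 < p.La * p.c ^ (p.kT + 12) := Nat.mul_pos p.hLa (by positivity)
    omega
  exact_mod_cast h1

theorem n_qpos : (0 : ℝ) < p.q := lt_of_lt_of_le one_pos (n_q p)

theorem n_q12 : (p.c : ℝ) ^ 12 ≤ p.q := by
  have h1 : ((p.La * p.c ^ (p.kT + 12) : ℕ) : ℝ) ≤ p.q := by exact_mod_cast p.N4
  push_cast at h1
  refine le_trans ?_ h1
  have h2 : (1 : ℝ) ≤ p.La := by exact_mod_cast p.hLa
  have h3 : (p.c : ℝ) ^ 12 ≤ (p.c : ℝ) ^ (p.kT + 12) := pow_le_pow_right₀ (n_c1 p) (by omega)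
  have h4 : (0 : ℝ) ≤ (p.c : ℝ) ^ (p.kT + 12) := pow_nonneg (n_cpos p).le _
  nlinarith

theorem n_wpos : (0 : ℝ) < p.w := by
  refine lt_of_lt_of_le ?_ (n_wK p)
  have := n_cpos p
  have := n_K0 p
  positivity

theorem n_wd_pos : (0 : ℝ) < p.w * p.d := mul_pos (n_wpos p) (lt_of_lt_of_le one_pos (n_d p))

theorem n_Cpos : (0 : ℝ) < p.C :=
  lt_of_lt_of_le (mul_pos (pow_pos (n_cpos p) _) (n_rho_pos p)) (n_C1 p)

end Pool.Agent.helper40.TGS
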