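import Pool.Agent.helper40.TGS.Geo
import Pool.Agent.helper40.TGS.NumS

set_option linter.all false
set_option autoImplicit false

/-!
# MP_ce98d8_co: section 10, case S: definitions and the first dichotomy
-/

namespace Pool.Agent.helper40.TGS

open Finset Classical
open Pool.Agent.helper11.Tight (nb eo mem_nb)
open Pool.Agent.helper24.TG

variable {P O A V : Type} [Fintype P] [DecidableEq P] [Fintype O] [DecidableEq O]
  [Fintype A] [DecidableEq A] [AddCommGroup A] [Fintype V] [DecidableEq V]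

/-- the union of the other slices of a given polarity -/
noncomputable def Est {p : Par} (S : Fin p.C → Finset (P × A)) (c0 : Fin p.C) (i : Bool) :
    Finset (P × A) :=
  ((Finset.univ.erase c0).filter (fun j => (p.hf j != p.hf c0) = i)).biUnion S

/-- inequality (A2) -/
def A2 (p : Par) (H : Host P O p.q) (v : O → A) (φ : Fin p.C → P → V)
    (S : Fin p.C → Finset (P × A)) (c0 : Fin p.C) (U M : Finset V) (del : ℕ) (z : P × A) : Prop :=
  (∑ j ∈ Finset.univ.erase c0, ((S j).card : ℝ)) + p.w * p.d +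
    (1 / (p.c : ℝ) ^ 4) * (((S c0 ∩ labS A (φ c0) M ∩ Ball H v z).card : ℝ) +
      ∑ j ∈ Finset.univ.erase c0, ((S j \ Nb H v (p.hf j != p.hf c0) z).card : ℝ)) ≤
  p.q * ((p.C : ℝ) - 1) + (((XA A H ∩ labS A (φ c0) U) \ S c0).card : ℝ) +
    (1 / 3) * p.B * p.w * del

section basic

variable {p : Par} {H : Host P O p.q} {v : O → A} {T : SimpleGraph V}
  {MM : Finset (Finset V)} {φ : Fin p.C → P → V} {S : Fin p.C → Finset (P × A)} {c0 : Fin p.C}

theorem mem_Est {i : Bool} {x : P × A} :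
    x ∈ Est S c0 i ↔ ∃ j, j ≠ c0 ∧ (p.hf j != p.hf c0) = i ∧ x ∈ S j := by
  unfold Est
  rw [Finset.mem_biUnion]
  constructor
  · rintro ⟨j, hj, hx⟩
    rw [Finset.mem_filter, Finset.mem_erase] at hj
    exact ⟨j, hj.1.1, hj.2, hx⟩
  · rintro ⟨j, h1, h2, hx⟩
    exact ⟨j, by rw [Finset.mem_filter, Finset.mem_erase]; exact ⟨⟨h1, Finset.mem_univ _⟩, h2⟩, hx⟩

theorem sub_Est {j : Fin p.C} (hj : j ≠ c0) : S j ⊆ Est S c0 (p.hf j != p.hf c0) :=
  fun x hx => mem_Est.2 ⟨j, hj, rfl, hx⟩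

theorem Est_XA (hS : Ind p H v T φ S) (i : Bool) : Est S c0 i ⊆ XA A H := by
  intro x hx
  obtain ⟨j, -, -, h⟩ := mem_Est.1 hx
  exact hS.sub j h

/-- the neighbourhoods of the other slices do not meet the slice `c0` -/
theorem NbS_Est_disj (hS : Ind p H v T φ S) (i : Bool) {x : P × A}
    (hx : x ∈ NbS H v i (Est S c0 i)) : x ∉ S c0 := by
  intro hx0
  rw [mem_NbS] at hx
  obtain ⟨y, hy, hyx⟩ := hx
  obtain ⟨j, h1, h2, h3⟩ := mem_Est.1 hy
  have := hS.cross j c0 h1 y h3 x hx0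
  rw [h2, mem_Nb] at this
  exact this hyx

theorem Nb_disj (hS : Ind p H v T φ S) {j : Fin p.C} (hj : j ≠ c0) {x y : P × A}
    (hy : y ∈ S j) (hx : x ∈ Nb H v (p.hf j != p.hf c0) y) : x ∉ S c0 :=
  fun h => hS.cross j c0 hj y hy x h hx

theorem QM_le (hS : Ind p H v T φ S) (hb : Bald p H (φ c0)) (z : P × A) (M : Finset V)
    (hM : M.card = p.d) :
    ((S c0 ∩ labS A (φ c0) M ∩ Ball H v z).card : ℝ) ≤ p.w * p.d := by
  have h1 : S c0 ∩ labS A (φ c0) M ∩ Ball H v z ⊆ Ball H v z ∩ XA A H ∩ labS A (φ c0) M := by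
    intro x hx
    rw [Finset.mem_inter, Finset.mem_inter] at hx
    rw [Finset.mem_inter, Finset.mem_inter]
    exact ⟨⟨hx.2, hS.sub c0 hx.1.1⟩, hx.1.2⟩
  have h2 := Finset.card_le_card h1
  rw [card_Ball_lab hb, hM] at h2
  exact_mod_cast h2

theorem E_le (z : P × A) :
    ∑ j ∈ Finset.univ.erase c0, ((S j \ Nb H v (p.hf j != p.hf c0) z).card : ℝ) ≤
      ∑ j ∈ Finset.univ.erase c0, ((S j).card : ℝ) := by
  apply Finset.sum_le_sum
  intro j _
  exact_mod_cast Finset.card_le_card Finset.sdiff_subset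

theorem exists_proper (H : Host P O p.q) : ∃ z : P × A, Proper H z := by
  have h1 : (XA A H).Nonempty := by
    rw [← Finset.card_pos, card_XA]
    have hq := n_qpos p
    have : 0 < p.q := by exact_mod_cast hq
    have hA : 0 < Fintype.card A := Fintype.card_pos
    positivity
  obtain ⟨z, hz⟩ := h1
  exact ⟨z, proper_of_XA hz⟩

/-- (A2) in the easy cases -/
theorem A2_of (hS : Ind p H v T φ S) (hb : Bald p H (φ c0)) {U M : Finset V} {del : ℕ}
    (hM : M.card = p.d) (z : P × A)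
    (h0 : -((p.w : ℝ) * p.d) ≤ p.q * ((p.C : ℝ) - 1) - ∑ j ∈ Finset.univ.erase c0, ((S j).card : ℝ))
    (h1 : (5 / 4 : ℝ) * (p.w * p.d) ≤
      p.q * ((p.C : ℝ) - 1) - ∑ j ∈ Finset.univ.erase c0, ((S j).card : ℝ) +
        (((XA A H ∩ labS A (φ c0) U) \ S c0).card : ℝ) + (1 / 3) * p.B * p.w * del) :
    A2 p H v φ S c0 U M del z := by
  unfold A2
  have e1 := QM_le hS hb z M hM
  have e2 := E_le (H := H) (v := v) (S := S) (c0 := c0) z
  set Oth := ∑ j ∈ Finset.univ.erase c0, ((S j).card : ℝ) with hOth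
  set EE := ∑ j ∈ Finset.univ.erase c0, ((S j \ Nb H v (p.hf j != p.hf c0) z).card : ℝ) with hEE
  set QM := ((S c0 ∩ labS A (φ c0) M ∩ Ball H v z).card : ℝ) with hQM
  have hc := n_c p
  have hcpos := n_cpos p
  have hwd := n_wd p
  have hwdpos := n_wd_pos p
  have hC2 := n_C2 p
  have hq := n_qpos p
  -- Oth ≤ q (C - 1) + w d ≤ 2 c³ w d + w d
  have e3 : Oth ≤ (2 * (p.c : ℝ) ^ 3 + 1) * (p.w * p.d) := by
    have : (p.q : ℝ) * ((p.C : ℝ) - 1) ≤ 2 * (p.c : ℝ) ^ 3 * (p.w * p.d) := by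
      rw [hwd]
      calc (p.q : ℝ) * ((p.C : ℝ) - 1) ≤ p.q * p.C := by nlinarith
        _ ≤ p.q * (2 * (p.c : ℝ) ^ 3 * p.rho) := mul_le_mul_of_nonneg_left hC2 hq.le
        _ = 2 * (p.c : ℝ) ^ 3 * (p.q * p.rho) := by ring
    linarith
  have e4 : (1 / (p.c : ℝ) ^ 4) * (QM + EE) ≤ (1 / 4 : ℝ) * (p.w * p.d) := by
    rw [div_mul_eq_mul_div, one_mul, div_le_iff₀ (pow_pos hcpos 4)]
    have e5 : QM + EE ≤ (2 * (p.c : ℝ) ^ 3 + 2) * (p.w * p.d) := by linarith
    refine le_trans e5 ?_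
    have e6 : (2 * (p.c : ℝ) ^ 3 + 2) ≤ 1 / 4 * (p.c : ℝ) ^ 4 := by
      have h3 : (1 : ℝ) ≤ (p.c : ℝ) ^ 3 := one_le_pow₀ (n_c1 p)
      have h4 : (p.c : ℝ) ^ 4 = p.c * (p.c : ℝ) ^ 3 := by ring
      rw [h4]
      nlinarith
    calc (2 * (p.c : ℝ) ^ 3 + 2) * (p.w * p.d) ≤ (1 / 4 * (p.c : ℝ) ^ 4) * (p.w * p.d) :=
          mul_le_mul_of_nonneg_right e6 hwdpos.le
      _ = 1 / 4 * (p.w * p.d) * (p.c : ℝ) ^ 4 := by ring
  linarith

end basic

/-! ### good copies -/

section good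

variable {p : Par} {H : Host P O p.q} {v : O → A} {T : SimpleGraph V}
  {MM : Finset (Finset V)} {φ : Fin p.C → P → V} {S : Fin p.C → Finset (P × A)} {c0 : Fin p.C}

/-- the copy `j` is good for the union of its polarity -/
def Gd (p : Par) (H : Host P O p.q) (v : O → A) (T : SimpleGraph V) (φ : Fin p.C → P → V)
    (S : Fin p.C → Finset (P × A)) (c0 j : Fin p.C) : Prop :=
  GoodC p H v T (φ j) (Est S c0 (p.hf j != p.hf c0))

theorem card_split (S L X : Finset (P × A)) (hS : S ⊆ X) :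
    S.card ≤ (S \ L).card + (L ∩ X).card := by
  have h1 : S ⊆ (S \ L) ∪ (L ∩ X) := by
    intro x hx
    rw [Finset.mem_union, Finset.mem_sdiff, Finset.mem_inter]
    by_cases h : x ∈ L
    · exact Or.inr ⟨h, hS hx⟩
    · exact Or.inl ⟨hx, h⟩
  exact le_trans (Finset.card_le_card h1) (Finset.card_union_le _ _)

theorem good_le (hS : Ind p H v T φ S) {j : Fin p.C} (hj : j ≠ c0)
    (hg : Gd p H v T φ S c0 j) : -((p.q : ℝ) / (p.c : ℝ) ^ 4) ≤ (p.q : ℝ) - ((S j).card : ℝ) := by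
  have hcpos := n_cpos p
  have hc4 : (0 : ℝ) < (p.c : ℝ) ^ 4 := pow_pos hcpos 4
  have hq := n_qpos p
  by_cases h8 : p.q ≤ 8 * (S j).card
  · obtain ⟨L, hL⟩ := hg (S j) (sub_Est hj) (hS.own j) h8
    have h1 := card_split (S j) (lin H v L) (XA A H) (hS.sub j)
    have h2 := card_lin_XA_le H v L
    have h3 : ((S j).card : ℝ) ≤ ((S j \ lin H v L).card : ℝ) + p.q := by
      exact_mod_cast le_trans h1 (Nat.add_le_add_left h2 _)
    have h4 : (p.c : ℝ) ^ 4 * ((S j \ lin H v L).card : ℝ) ≤ p.q := by exact_mod_cast hL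
    have h5 : ((S j \ lin H v L).card : ℝ) ≤ (p.q : ℝ) / (p.c : ℝ) ^ 4 := by
      rw [le_div_iff₀ hc4]; linarith
    linarith
  · push Not at h8
    have h9 : (8 : ℝ) * ((S j).card : ℝ) ≤ p.q := by exact_mod_cast h8.le
    have h10 : 0 ≤ (p.q : ℝ) / (p.c : ℝ) ^ 4 := by positivity
    have h11 : (0 : ℝ) ≤ ((S j).card : ℝ) := by positivity
    linarith

theorem card_bad (hM : MPr p H v T MM φ) (hS : Ind p H v T φ S)
    (hE : ∀ i, (Est S c0 i).card ≤ p.c ^ 6 * p.q) :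
    (((Finset.univ.erase c0).filter (fun j => ¬ Gd p H v T φ S c0 j)).card : ℝ) ≤
      2 * ((p.c : ℝ) ^ 12 * p.B) := by
  have h1 : (Finset.univ.erase c0).filter (fun j => ¬ Gd p H v T φ S c0 j) ⊆
      (Finset.univ.filter (fun j : Fin p.C => ¬ GoodC p H v T (φ j) (Est S c0 false))) ∪
      (Finset.univ.filter (fun j : Fin p.C => ¬ GoodC p H v T (φ j) (Est S c0 true))) := by
    intro j hj
    rw [Finset.mem_filter] at hj
    rw [Finset.mem_union, Finset.mem_filter, Finset.mem_filter]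
    have h2 := hj.2
    unfold Gd at h2
    cases h3 : (p.hf j != p.hf c0)
    · rw [h3] at h2
      exact Or.inl ⟨Finset.mem_univ _, h2⟩
    · rw [h3] at h2
      exact Or.inr ⟨Finset.mem_univ _, h2⟩
  have h2 := le_trans (Finset.card_le_card h1) (Finset.card_union_le _ _)
  have h3 := hM.q3 _ (Est_XA (c0 := c0) hS false) (hE false)
  have h4 := hM.q3 _ (Est_XA (c0 := c0) hS true) (hE true)
  have h5 : ((Finset.univ.erase c0).filter (fun j => ¬ Gd p H v T φ S c0 j)).card ≤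
      2 * (p.c ^ 12 * p.B) := by omega
  exact_mod_cast h5

/-- elementary: a sum with few very negative terms -/
theorem sum_low {ι : Type} (J : Finset ι) (x : ι → ℝ) (G : ι → Prop) (a b m n : ℝ) (ha : 0 ≤ a)
    (hb : 0 ≤ b) (h1 : ∀ j ∈ J, G j → -a ≤ x j) (h2 : ∀ j ∈ J, ¬ G j → -b ≤ x j)
    (hn : (J.card : ℝ) ≤ n) (hm : ((J.filter (fun j => ¬ G j)).card : ℝ) ≤ m) :
    (∑ j ∈ J.filter G, max (x j) 0) - n * a - m * b ≤ ∑ j ∈ J, x j := by
  rw [← Finset.sum_filter_add_sum_filter_not J G x]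
  have e1 : (∑ j ∈ J.filter G, max (x j) 0) - n * a ≤ ∑ j ∈ J.filter G, x j := by
    have e2 : ∑ j ∈ J.filter G, (max (x j) 0 - a) ≤ ∑ j ∈ J.filter G, x j := by
      apply Finset.sum_le_sum
      intro j hj
      rw [Finset.mem_filter] at hj
      have := h1 j hj.1 hj.2
      rcases le_total (x j) 0 with h | h
      · rw [max_eq_right h]; linarith
      · rw [max_eq_left h]; linarith
    rw [Finset.sum_sub_distrib, Finset.sum_const, nsmul_eq_mul] at e2
    have e3 : ((J.filter G).card : ℝ) * a ≤ n * a := by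
      apply mul_le_mul_of_nonneg_right _ ha
      refine le_trans ?_ hn
      exact_mod_cast Finset.card_le_card (Finset.filter_subset _ _)
    linarith
  have e4 : - (m * b) ≤ ∑ j ∈ J.filter (fun j => ¬ G j), x j := by
    have e5 : ∑ j ∈ J.filter (fun j => ¬ G j), (-b) ≤ ∑ j ∈ J.filter (fun j => ¬ G j), x j := by
      apply Finset.sum_le_sum
      intro j hj
      rw [Finset.mem_filter] at hj
      exact h2 j hj.1 hj.2
    rw [Finset.sum_const, nsmul_eq_mul] at e5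
    have e6 : ((J.filter (fun j => ¬ G j)).card : ℝ) * b ≤ m * b :=
      mul_le_mul_of_nonneg_right hm hb
    linarith
  linarith

/-- the sum of the deficits -/
theorem sum_def (S : Fin p.C → Finset (P × A)) (c0 : Fin p.C) :
    ∑ j ∈ Finset.univ.erase c0, ((p.q : ℝ) - ((S j).card : ℝ)) =
      p.q * ((p.C : ℝ) - 1) - ∑ j ∈ Finset.univ.erase c0, ((S j).card : ℝ) := by
  rw [Finset.sum_sub_distrib, Finset.sum_const, nsmul_eq_mul, Finset.card_erase_of_mem
    (Finset.mem_univ _), Finset.card_univ, Fintype.card_fin]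
  have : 1 ≤ p.C := by
    have h := c0.2
    omega
  rw [Nat.cast_sub this]
  push_cast
  ring

/-- `C q / c^4 + 2 c^12 B * (c^6 q / 2)` is small -/
theorem neg_small (p : Par) : (p.C : ℝ) * ((p.q : ℝ) / (p.c : ℝ) ^ 4) +
    2 * ((p.c : ℝ) ^ 12 * p.B) * ((p.c : ℝ) ^ 6 * p.q) ≤ (1 / 4 : ℝ) * (p.w * p.d) := by
  have hc := n_c p
  have hcpos := n_cpos p
  have hwd := n_wd p
  have hC2 := n_C2 p
  have hq := n_qpos p
  have hρ := n_rho_pos p
  have hc4 : (0 : ℝ) < (p.c : ℝ) ^ 4 := pow_pos hcpos 4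
  rw [hwd]
  have e1 : (p.C : ℝ) * ((p.q : ℝ) / (p.c : ℝ) ^ 4) ≤ (1 / 8 : ℝ) * (p.q * p.rho) := by
    rw [← mul_div_assoc, div_le_iff₀ hc4]
    calc (p.C : ℝ) * p.q ≤ (2 * (p.c : ℝ) ^ 3 * p.rho) * p.q := mul_le_mul_of_nonneg_right hC2 hq.le
      _ = (2 * (p.c : ℝ) ^ 3) * (p.q * p.rho) := by ring
      _ ≤ (1 / 8 * (p.c : ℝ) ^ 4) * (p.q * p.rho) := by
          apply mul_le_mul_of_nonneg_right _ (mul_pos hq hρ).le
          have h3 : (0 : ℝ) < (p.c : ℝ) ^ 3 := pow_pos hcpos 3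
          have h4 : (p.c : ℝ) ^ 4 = p.c * (p.c : ℝ) ^ 3 := by ring
          rw [h4]
          nlinarith
      _ = 1 / 8 * (p.q * p.rho) * (p.c : ℝ) ^ 4 := by ring
  have e2 : 2 * ((p.c : ℝ) ^ 12 * p.B) * ((p.c : ℝ) ^ 6 * p.q) ≤ (1 / 8 : ℝ) * (p.q * p.rho) := by
    have h1 := n_rho' p (i := 19) (j := 1) (by norm_num) (by norm_num)
    have hB := n_Bpos p
    have h2 : 16 * ((p.c : ℝ) ^ 18 * p.B) ≤ p.rho := by
      calc 16 * ((p.c : ℝ) ^ 18 * p.B) ≤ p.c * ((p.c : ℝ) ^ 18 * p.B) := by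
            apply mul_le_mul_of_nonneg_right (le_trans (by norm_num) hc)
            positivity
        _ = (p.c : ℝ) ^ 19 * (p.B : ℝ) ^ 1 := by ring
        _ ≤ p.rho := h1
    calc 2 * ((p.c : ℝ) ^ 12 * p.B) * ((p.c : ℝ) ^ 6 * p.q) =
          1 / 8 * (p.q * (16 * ((p.c : ℝ) ^ 18 * p.B))) := by ring
      _ ≤ 1 / 8 * (p.q * p.rho) := by
          apply mul_le_mul_of_nonneg_left _ (by norm_num)
          exact mul_le_mul_of_nonneg_left h2 hq.le
  linarith

/-- a copy is full -/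
def Fl (p : Par) (H : Host P O p.q) (v : O → A) (T : SimpleGraph V) (φ : Fin p.C → P → V)
    (S : Fin p.C → Finset (P × A)) (c0 j : Fin p.C) : Prop :=
  Gd p H v T φ S c0 j ∧ (p.q : ℝ) - ((S j).card : ℝ) < p.q / p.c

/-- the first dichotomy -/
theorem dich (hM : MPr p H v T MM φ) (hS : Ind p H v T φ S)
    (hE : ∀ i, (Est S c0 i).card ≤ p.c ^ 6 * p.q) :
    -((1 / 4 : ℝ) * (p.w * p.d)) ≤
        p.q * ((p.C : ℝ) - 1) - ∑ j ∈ Finset.univ.erase c0, ((S j).card : ℝ) ∧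
    ((15 / 4 : ℝ) * (p.w * p.d) ≤
        p.q * ((p.C : ℝ) - 1) - ∑ j ∈ Finset.univ.erase c0, ((S j).card : ℝ) ∨
      (((Finset.univ.erase c0).filter (fun j => ¬ Fl p H v T φ S c0 j)).card : ℝ) ≤
        2 * p.C / p.c) := by
  have hcpos := n_cpos p
  have hc := n_c p
  have hq := n_qpos p
  have hρ := n_rho_pos p
  have hwd := n_wd p
  set x : Fin p.C → ℝ := fun j => (p.q : ℝ) - ((S j).card : ℝ) with hx
  have hbad := card_bad hM hS hE
  have hlow := sum_low (Finset.univ.erase c0) x (Gd p H v T φ S c0) ((p.q : ℝ) / (p.c : ℝ) ^ 4)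
    ((p.c : ℝ) ^ 6 * p.q) (2 * ((p.c : ℝ) ^ 12 * p.B)) p.C (by positivity) (by positivity)
    (fun j hj hg => good_le hS (Finset.ne_of_mem_erase hj) hg)
    (by
      intro j hj _
      have h1 := Finset.card_le_card (sub_Est (S := S) (Finset.ne_of_mem_erase hj))
      have h2 := le_trans h1 (hE _)
      have h3 : ((S j).card : ℝ) ≤ (p.c : ℝ) ^ 6 * p.q := by exact_mod_cast h2
      show -((p.c : ℝ) ^ 6 * p.q) ≤ (p.q : ℝ) - ((S j).card : ℝ)
      linarith)
    (by
      have : (Finset.univ.erase c0).card ≤ p.C := by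
        rw [Finset.card_erase_of_mem (Finset.mem_univ _), Finset.card_univ, Fintype.card_fin]
        exact Nat.sub_le _ _
      exact_mod_cast this)
    hbad
  rw [sum_def] at hlow
  have hneg := neg_small p
  have hmax0 : 0 ≤ ∑ j ∈ (Finset.univ.erase c0).filter (Gd p H v T φ S c0), max (x j) 0 :=
    Finset.sum_nonneg (fun j _ => le_max_right _ _)
  refine ⟨by linarith, ?_⟩
  by_cases hcase : 4 * ((p.w : ℝ) * p.d) ≤
      ∑ j ∈ (Finset.univ.erase c0).filter (Gd p H v T φ S c0), max (x j) 0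
  · left
    linarith
  · right
    push Not at hcase
    -- not full: bad, or good with large deficit
    set NF := ((Finset.univ.erase c0).filter (Gd p H v T φ S c0)).filter
      (fun j => (p.q : ℝ) / p.c ≤ x j) with hNF
    have h1 : (NF.card : ℝ) * ((p.q : ℝ) / p.c) ≤ 4 * ((p.w : ℝ) * p.d) := by
      have h2 : ∑ j ∈ NF, (p.q : ℝ) / p.c ≤
          ∑ j ∈ (Finset.univ.erase c0).filter (Gd p H v T φ S c0), max (x j) 0 := by
        calc ∑ j ∈ NF, (p.q : ℝ) / p.c ≤ ∑ j ∈ NF, max (x j) 0 := by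
              apply Finset.sum_le_sum
              intro j hj
              rw [hNF, Finset.mem_filter] at hj
              exact le_trans hj.2 (le_max_left _ _)
          _ ≤ _ := by
              apply Finset.sum_le_sum_of_subset_of_nonneg (Finset.filter_subset _ _)
              intro j _ _
              exact le_max_right _ _
      rw [Finset.sum_const, nsmul_eq_mul] at h2
      linarith
    have h3 : (NF.card : ℝ) ≤ 4 * p.c * p.rho := by
      rw [hwd, mul_div_assoc'] at h1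
      rw [div_le_iff₀ hcpos] at h1
      have h4 : (p.q : ℝ) * NF.card ≤ p.q * (4 * p.c * p.rho) := by
        calc (p.q : ℝ) * NF.card = (NF.card : ℝ) * p.q := mul_comm _ _
          _ ≤ 4 * (p.q * p.rho) * p.c := h1
          _ = p.q * (4 * p.c * p.rho) := by ring
      exact le_of_mul_le_mul_left h4 hq
    have h5 : (Finset.univ.erase c0).filter (fun j => ¬ Fl p H v T φ S c0 j) ⊆
        NF ∪ (Finset.univ.erase c0).filter (fun j => ¬ Gd p H v T φ S c0 j) := by
      intro j hj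
      rw [Finset.mem_filter] at hj
      rw [Finset.mem_union, hNF, Finset.mem_filter, Finset.mem_filter, Finset.mem_filter]
      by_cases hg : Gd p H v T φ S c0 j
      · left
        refine ⟨⟨hj.1, hg⟩, ?_⟩
        by_contra hcon
        push Not at hcon
        exact hj.2 ⟨hg, hcon⟩
      · exact Or.inr ⟨hj.1, hg⟩
    have h6 := le_trans (Finset.card_le_card h5) (Finset.card_union_le _ _)
    have h7 : (((Finset.univ.erase c0).filter (fun j => ¬ Fl p H v T φ S c0 j)).card : ℝ) ≤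
        4 * p.c * p.rho + 2 * ((p.c : ℝ) ^ 12 * p.B) := by
      have : (((Finset.univ.erase c0).filter (fun j => ¬ Fl p H v T φ S c0 j)).card : ℝ) ≤
        (NF.card : ℝ) + (((Finset.univ.erase c0).filter
          (fun j => ¬ Gd p H v T φ S c0 j)).card : ℝ) := by exact_mod_cast h6
      linarith
    refine le_trans h7 ?_
    rw [le_div_iff₀ hcpos]
    have hC1 := n_C1 p
    have h8 := n_rho' p (i := 12) (j := 1) (by norm_num) (by norm_num)
    rw [pow_one] at h8
    have h9 : 4 * (p.c : ℝ) * p.rho + 2 * ((p.c : ℝ) ^ 12 * p.B) ≤ (4 * p.c + 2) * p.rho := by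
      linarith
    calc (4 * (p.c : ℝ) * p.rho + 2 * ((p.c : ℝ) ^ 12 * p.B)) * p.c ≤
          ((4 * p.c + 2) * p.rho) * p.c := mul_le_mul_of_nonneg_right h9 hcpos.le
      _ = ((4 * p.c + 2) * p.c) * p.rho := by ring
      _ ≤ (2 * (p.c : ℝ) ^ 3) * p.rho := by
          apply mul_le_mul_of_nonneg_right _ hρ.le
          have g1 : (1 : ℝ) ≤ p.c := n_c1 p
          have g2 : (4 * (p.c : ℝ) + 2) * p.c ≤ 6 * (p.c : ℝ) ^ 2 := by nlinarith
          have g3 : (p.c : ℝ) ^ 3 = p.c * (p.c : ℝ) ^ 2 := by ring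
          have g4 : (0 : ℝ) < (p.c : ℝ) ^ 2 := by positivity
          rw [g3]
          nlinarith
      _ = 2 * ((p.c : ℝ) ^ 3 * p.rho) := by ring
      _ ≤ 2 * p.C := by linarith

end good

end Pool.Agent.helper40.TGS
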