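import Pool.Agent.helper40.TGS.CaseS1

set_option linter.all false
set_option autoImplicit false

/-!
# MP_ce98d8_co: section 10, case S-b-1 (two different centres)
-/

namespace Pool.Agent.helper40.TGS

open Finset Classical
open Pool.Agent.helper11.Tight (nb eo mem_nb)
open Pool.Agent.helper24.TG

variable {P O A V : Type} [Fintype P] [DecidableEq P] [Fintype O] [DecidableEq O]
  [Fintype A] [DecidableEq A] [AddCommGroup A] [Fintype V] [DecidableEq V]

variable {p : Par} {H : Host P O p.q} {v : O → A} {T : SimpleGraph V}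
  {MM : Finset (Finset V)} {φ : Fin p.C → P → V} {S : Fin p.C → Finset (P × A)} {c0 : Fin p.C}

/-- (P1) on lifted lines -/
theorem lin_lab_le {ψ : P → V} (hP : P1 p H T MM ψ) (v : O → A) (L : P × A) {Z : Finset V}
    (hZ : Spec T MM Z) : ((lin H v L ∩ XA A H ∩ labS A ψ Z).card : ℝ) ≤ 3 * p.rho := by
  refine le_trans ?_ (hP L.1 Z hZ)
  have h1 : lin H v L ∩ XA A H ∩ labS A ψ Z =
      (lin H v L).filter (fun x => x.1 ∈ PA H ∧ ψ x.1 ∈ Z) := by
    ext x
    rw [Finset.mem_inter, Finset.mem_inter, Finset.mem_filter, mem_XA, mem_labS, mem_PA]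
    tauto
  rw [h1, card_lin_filter H v L (fun t => t ∈ PA H ∧ ψ t ∈ Z)]
  have h2 : Finset.univ.filter (fun t => H.inc t L.1 ∧ t ∈ PA H ∧ ψ t ∈ Z) =
      (PA H).filter (fun t => H.inc t L.1 ∧ ψ t ∈ Z) := by
    ext t
    rw [Finset.mem_filter, Finset.mem_filter]
    constructor
    · rintro ⟨-, a, b, c⟩
      exact ⟨b, a, c⟩
    · rintro ⟨a, b, c⟩
      exact ⟨Finset.mem_univ _, b, a, c⟩
  rw [h2]

/-- few points of the ball with label in `M` are not neighbours of `R` -/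
theorem cover (hP : PPr p H v T MM (φ c0)) {M : Finset V} (hMM : M ∈ MM) (hMd : M.card = p.d)
    (i : Bool) (z : P × A) (R : Finset (P × A))
    (h : (p.q : ℝ) - 2 * p.q / p.c ≤ ((R ∩ Nb H v i z).card : ℝ)) :
    (p.w : ℝ) * p.d - 7 * (p.w * p.d) / p.c ≤
      ((Ball H v z ∩ XA A H ∩ labS A (φ c0) M ∩ NbS H v i R).card : ℝ) := by
  have hcpos := n_cpos p
  have hc := n_c p
  have hq := n_qpos p
  have hρ := n_rho_pos p
  have hwd := n_wd p
  have h1 : Ball H v z ∩ XA A H ∩ labS A (φ c0) M ⊆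
      (Ball H v z ∩ XA A H ∩ labS A (φ c0) M ∩ NbS H v i R) ∪
      ({z} ∪ (Nb H v i z \ R).biUnion (fun y => Nb H v i y ∩ XA A H ∩ labS A (φ c0) M)) := by
    intro x hx
    rw [Finset.mem_union, Finset.mem_union, Finset.mem_singleton]
    by_cases hxz : x = z
    · exact Or.inr (Or.inl hxz)
    · have hx' := hx
      rw [Finset.mem_inter, Finset.mem_inter] at hx'
      have hG : x ∈ Gam H v z := by
        have := hx'.1.1
        unfold Ball at this
        rw [Finset.mem_insert] at this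
        rcases this with h | h
        · exact absurd h hxz
        · exact h
      obtain ⟨y, hy, hyx, -⟩ := exists_Nb_of_Gam i hG
      by_cases hyR : y ∈ R
      · left
        rw [Finset.mem_inter]
        refine ⟨hx, ?_⟩
        rw [mem_NbS]
        exact ⟨y, hyR, by rwa [mem_Nb] at hyx⟩
      · right; right
        rw [Finset.mem_biUnion]
        exact ⟨y, by rw [Finset.mem_sdiff]; exact ⟨hy, hyR⟩, by
          rw [Finset.mem_inter, Finset.mem_inter]
          exact ⟨⟨hyx, hx'.1.2⟩, hx'.2⟩⟩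
  have h2 := le_trans (Finset.card_le_card h1) (le_trans (Finset.card_union_le _ _)
    (Nat.add_le_add_left (Finset.card_union_le _ _) _))
  rw [card_Ball_lab hP.bal, hMd, Finset.card_singleton] at h2
  have h3 : (((Nb H v i z \ R).biUnion
      (fun y => Nb H v i y ∩ XA A H ∩ labS A (φ c0) M)).card : ℝ) ≤
      ((Nb H v i z \ R).card : ℝ) * (3 * p.rho) := by
    have h4 : (((Nb H v i z \ R).biUnion
      (fun y => Nb H v i y ∩ XA A H ∩ labS A (φ c0) M)).card : ℝ) ≤
      ∑ y ∈ Nb H v i z \ R, ((Nb H v i y ∩ XA A H ∩ labS A (φ c0) M).card : ℝ) := by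
      exact_mod_cast Finset.card_biUnion_le
    refine le_trans h4 ?_
    calc ∑ y ∈ Nb H v i z \ R, ((Nb H v i y ∩ XA A H ∩ labS A (φ c0) M).card : ℝ) ≤
          ∑ y ∈ Nb H v i z \ R, (3 * p.rho) := by
            apply Finset.sum_le_sum
            intro y _
            exact lin_lab_le hP.p1 v _ (Or.inl hMM)
      _ = _ := by rw [Finset.sum_const, nsmul_eq_mul]
  have h5 : ((Nb H v i z \ R).card : ℝ) ≤ 2 * p.q / p.c + 1 := by
    have h6 := Finset.card_sdiff_add_card_inter (Nb H v i z) R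
    rw [card_Nb, Finset.inter_comm] at h6
    have h7 : ((Nb H v i z \ R).card : ℝ) + ((R ∩ Nb H v i z).card : ℝ) = p.q + 1 := by
      exact_mod_cast h6
    linarith
  have h8 : (p.w : ℝ) * p.d ≤
      ((Ball H v z ∩ XA A H ∩ labS A (φ c0) M ∩ NbS H v i R).card : ℝ) + (1 +
      (((Nb H v i z \ R).biUnion
        (fun y => Nb H v i y ∩ XA A H ∩ labS A (φ c0) M)).card : ℝ)) := by
    exact_mod_cast h2
  have h9 : ((Nb H v i z \ R).card : ℝ) * (3 * p.rho) ≤ (2 * p.q / p.c + 1) * (3 * p.rho) :=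
    mul_le_mul_of_nonneg_right h5 (by positivity)
  -- 1 + (2 q / c + 1) 3 ρ ≤ 7 q ρ / c
  have h10 : 1 + (2 * (p.q : ℝ) / p.c + 1) * (3 * p.rho) ≤ 7 * (p.w * p.d) / p.c := by
    rw [hwd]
    have hρ1 : (1 : ℝ) ≤ p.rho := by
      have := n_rho' p (i := 0) (j := 0) (by norm_num) (by norm_num)
      simpa using this
    have hqc : 4 ≤ (p.q : ℝ) / p.c := by
      rw [le_div_iff₀ hcpos]
      refine le_trans ?_ (n_q12 p)
      have e1 : (p.c : ℝ) ^ 12 = p.c ^ 11 * p.c := by ring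
      rw [e1]
      apply mul_le_mul_of_nonneg_right _ hcpos.le
      calc (4 : ℝ) ≤ p.c := le_trans (by norm_num) hc
        _ = (p.c : ℝ) ^ 1 := (pow_one _).symm
        _ ≤ (p.c : ℝ) ^ 11 := pow_le_pow_right₀ (n_c1 p) (by norm_num)
    have e2 : 7 * ((p.q : ℝ) * p.rho) / p.c = 7 * ((p.q : ℝ) / p.c) * p.rho := by
      field_simp
    have e3 : 1 + (2 * (p.q : ℝ) / p.c + 1) * (3 * p.rho) =
        1 + 3 * p.rho + 6 * ((p.q : ℝ) / p.c) * p.rho := by
      field_simp
      ring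
    rw [e2, e3]
    nlinarith
  linarith

/-- the labels in `M` outside `U` -/
theorem MU_le {U M : Finset V} {del K d : ℕ} (hMd : M.card = d) (hU : U.card + del = d)
    (hUM : (U \ M).card ≤ K * del) : (M \ U).card ≤ (K + 1) * del := by
  have h1 := Finset.card_sdiff_add_card_inter M U
  have h2 := Finset.card_sdiff_add_card_inter U M
  rw [Finset.inter_comm] at h2
  have e : (K + 1) * del = K * del + del := by ring
  rw [e]
  omega

/-- case S-b-1 -/
theorem caseSb1 (hPr : MPr p H v T MM φ) (hS : Ind p H v T φ S)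
    {U M : Finset V} (hMM : M ∈ MM) (hMd : M.card = p.d) {del : ℕ} (hU : U.card + del = p.d)
    (hUM : (U \ M).card ≤ p.K * del)
    (hlow : -((1 / 4 : ℝ) * (p.w * p.d)) ≤
        p.q * ((p.C : ℝ) - 1) - ∑ j ∈ Finset.univ.erase c0, ((S j).card : ℝ))
    {j1 j2 : Fin p.C} (hj1 : j1 ≠ c0) (hj2 : j2 ≠ c0) {z1 z2 : P × A} (hz : z1 ≠ z2)
    (h1 : (p.q : ℝ) - 2 * p.q / p.c ≤ ((S j1 ∩ Nb H v (p.hf j1 != p.hf c0) z1).card : ℝ))
    (h2 : (p.q : ℝ) - 2 * p.q / p.c ≤ ((S j2 ∩ Nb H v (p.hf j2 != p.hf c0) z2).card : ℝ))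
    (z : P × A) : A2 p H v φ S c0 U M del z := by
  have hP := hPr.one c0
  have hcpos := n_cpos p
  have hc := n_c p
  have hq := n_qpos p
  have hρ := n_rho_pos p
  have hwd := n_wd p
  have hwdpos := n_wd_pos p
  have c1 := cover hP hMM hMd _ z1 (S j1) h1
  have c2 := cover hP hMM hMd _ z2 (S j2) h2
  set W1 := Ball H v z1 ∩ XA A H ∩ labS A (φ c0) M ∩ NbS H v (p.hf j1 != p.hf c0) (S j1) with hW1
  set W2 := Ball H v z2 ∩ XA A H ∩ labS A (φ c0) M ∩ NbS H v (p.hf j2 != p.hf c0) (S j2) with hW2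
  have hi : (W1 ∩ W2) ⊆ {z1} ∪ ({z2} ∪
      (Gam H v z1 ∩ Gam H v z2 ∩ XA A H ∩ labS A (φ c0) M)) := by
    intro x hx
    rw [Finset.mem_inter, hW1, hW2] at hx
    simp only [Finset.mem_inter, Ball, Finset.mem_insert] at hx
    simp only [Finset.mem_union, Finset.mem_singleton, Finset.mem_inter]
    tauto
  have hi2 : ((W1 ∩ W2).card : ℝ) ≤ 2 + p.w * p.d / p.c := by
    have h3 := le_trans (Finset.card_le_card hi) (le_trans (Finset.card_union_le _ _)
      (Nat.add_le_add_left (Finset.card_union_le _ _) _))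
    rw [Finset.card_singleton, Finset.card_singleton] at h3
    have h4 := hP.p4' z1 z2 M hz hMM
    have h5 : ((W1 ∩ W2).card : ℝ) ≤ 1 + (1 +
        ((Gam H v z1 ∩ Gam H v z2 ∩ XA A H ∩ labS A (φ c0) M).card : ℝ)) := by exact_mod_cast h3
    rw [hwd]
    linarith
  have hunion : (W1.card : ℝ) + W2.card = ((W1 ∪ W2).card : ℝ) + ((W1 ∩ W2).card : ℝ) := by
    exact_mod_cast (Finset.card_union_add_card_inter W1 W2).symm
  have hsub : W1 ∪ W2 ⊆ ((XA A H ∩ labS A (φ c0) U) \ S c0) ∪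
      ((Ball H v z1 ∩ XA A H ∩ labS A (φ c0) (M \ U)) ∪
        (Ball H v z2 ∩ XA A H ∩ labS A (φ c0) (M \ U))) := by
    intro x hx
    have hxS : x ∉ S c0 := by
      rw [Finset.mem_union] at hx
      rcases hx with hx | hx
      · rw [hW1, Finset.mem_inter, mem_NbS] at hx
        obtain ⟨y, hy, hyx⟩ := hx.2
        exact Nb_disj hS hj1 hy (by rw [mem_Nb]; exact hyx)
      · rw [hW2, Finset.mem_inter, mem_NbS] at hx
        obtain ⟨y, hy, hyx⟩ := hx.2
        exact Nb_disj hS hj2 hy (by rw [mem_Nb]; exact hyx)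
    rw [Finset.mem_union, hW1, hW2] at hx
    simp only [Finset.mem_inter, mem_labS] at hx
    simp only [Finset.mem_union, Finset.mem_inter, Finset.mem_sdiff, mem_labS]
    by_cases hU' : φ c0 x.1 ∈ U
    · left
      rcases hx with hx | hx
      · exact ⟨⟨hx.1.1.2, hU'⟩, hxS⟩
      · exact ⟨⟨hx.1.1.2, hU'⟩, hxS⟩
    · right
      rcases hx with hx | hx
      · exact Or.inl ⟨hx.1.1, hx.1.2, hU'⟩
      · exact Or.inr ⟨hx.1.1, hx.1.2, hU'⟩
  have h3 := le_trans (Finset.card_le_card hsub) (le_trans (Finset.card_union_le _ _)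
      (Nat.add_le_add_left (Finset.card_union_le _ _) _))
  rw [card_Ball_lab hP.bal, card_Ball_lab hP.bal] at h3
  have hMU := MU_le hMd hU hUM
  have h4 : ((W1 ∪ W2).card : ℝ) ≤ (((XA A H ∩ labS A (φ c0) U) \ S c0).card : ℝ) +
      (p.w * ((M \ U).card : ℝ) + p.w * ((M \ U).card : ℝ)) := by exact_mod_cast h3
  have h5 : ((M \ U).card : ℝ) ≤ ((p.K : ℝ) + 1) * del := by exact_mod_cast hMU
  have hw := n_wpos p
  have h6 : (p.w : ℝ) * ((M \ U).card : ℝ) ≤ (1 / 6) * p.B * p.w * del := by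
    have hBK := n_BK p
    have hK0 := n_K0 p
    have h7 : (p.K : ℝ) + 1 ≤ (1 / 6) * p.B := by
      have h8 : (6 : ℝ) ≤ (p.c : ℝ) ^ 15 := by
        calc (6 : ℝ) ≤ p.c := le_trans (by norm_num) hc
          _ = (p.c : ℝ) ^ 1 := (pow_one _).symm
          _ ≤ (p.c : ℝ) ^ 15 := pow_le_pow_right₀ (n_c1 p) (by norm_num)
      nlinarith
    calc (p.w : ℝ) * ((M \ U).card : ℝ) ≤ p.w * (((p.K : ℝ) + 1) * del) :=
          mul_le_mul_of_nonneg_left h5 hw.le
      _ = ((p.K : ℝ) + 1) * (p.w * del) := by ring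
      _ ≤ ((1 / 6) * p.B) * (p.w * del) :=
          mul_le_mul_of_nonneg_right h7 (by positivity)
      _ = (1 / 6) * p.B * p.w * del := by ring
  -- small terms
  have h7 : 15 * ((p.w : ℝ) * p.d) / p.c + 2 ≤ (1 / 4) * (p.w * p.d) := by
    have h8 : 15 * ((p.w : ℝ) * p.d) / p.c ≤ (1 / 8) * (p.w * p.d) := by
      rw [div_le_iff₀ hcpos]
      nlinarith
    have h9 : (2 : ℝ) ≤ (1 / 8) * (p.w * p.d) := by
      have h10 := n_wK p
      have h11 := n_K0 p
      have h12 := n_d p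
      have h13 : (16 : ℝ) ≤ p.w := by
        have h14 : (16 : ℝ) ≤ (p.c : ℝ) ^ 10 := by
          calc (16 : ℝ) ≤ p.c := le_trans (by norm_num) hc
            _ = (p.c : ℝ) ^ 1 := (pow_one _).symm
            _ ≤ (p.c : ℝ) ^ 10 := pow_le_pow_right₀ (n_c1 p) (by norm_num)
        nlinarith
      nlinarith
    linarith
  have e1 : 15 * ((p.w : ℝ) * p.d) / p.c =
      7 * ((p.w : ℝ) * p.d) / p.c + 7 * ((p.w : ℝ) * p.d) / p.c + p.w * p.d / p.c := by ring
  apply A2_of hS hP.bal hMd z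
  · linarith
  · linarith

end Pool.Agent.helper40.TGS
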