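import Pool.Agent.helper40.TGS.CaseS2

set_option linter.all false
set_option autoImplicit false

/-!
# MP_ce98d8_co: section 10, case S-b-2 (common centre)
-/

namespace Pool.Agent.helper40.TGS

open Finset Classical
open Pool.Agent.helper11.Tight (nb eo mem_nb)
open Pool.Agent.helper24.TG

variable {P O A V : Type} [Fintype P] [DecidableEq P] [Fintype O] [DecidableEq O]
  [Fintype A] [DecidableEq A] [AddCommGroup A] [Fintype V] [DecidableEq V]

variable {p : Par} {H : Host P O p.q} {v : O → A} {T : SimpleGraph V}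
  {MM : Finset (Finset V)} {φ : Fin p.C → P → V} {S : Fin p.C → Finset (P × A)} {c0 : Fin p.C}

/-- exceptional points with polarity `i` -/
noncomputable def Ep (H : Host P O p.q) (v : O → A) (S : Fin p.C → Finset (P × A))
    (c0 : Fin p.C) (z : P × A) (i : Bool) : Finset (P × A) :=
  Est S c0 i \ Nb H v i z

/-- the missing points outside the ball -/
noncomputable def Rout (H : Host P O p.q) (v : O → A) (φ : Fin p.C → P → V)
    (S : Fin p.C → Finset (P × A)) (c0 : Fin p.C) (U : Finset V) (z : P × A) :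
    Finset (P × A) :=
  ((XA A H ∩ labS A (φ c0) U) \ Ball H v z) \ S c0

/-- step A -/
theorem stepA (hS : Ind p H v T φ S) (hb : Bald p H (φ c0)) (U M : Finset V) (z : P × A) :
    (p.w : ℝ) * U.card + ((Rout H v φ S c0 U z).card : ℝ) ≤
      (((XA A H ∩ labS A (φ c0) U) \ S c0).card : ℝ) +
      ((S c0 ∩ labS A (φ c0) M ∩ Ball H v z).card : ℝ) + p.w * ((U \ M).card : ℝ) := by
  have h1 := card_Ball_lab hb (v := v) z U
  have h2 := card_Ball_lab hb (v := v) z (U \ M)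
  have h3 : (Ball H v z ∩ XA A H ∩ labS A (φ c0) U) ∪ Rout H v φ S c0 U z ⊆
      ((XA A H ∩ labS A (φ c0) U) \ S c0) ∪ ((S c0 ∩ labS A (φ c0) M ∩ Ball H v z) ∪
        (Ball H v z ∩ XA A H ∩ labS A (φ c0) (U \ M))) := by
    intro x hx
    unfold Rout at hx
    simp only [Finset.mem_union, Finset.mem_inter, Finset.mem_sdiff, mem_labS] at hx ⊢
    by_cases h4 : x ∈ S c0
    · by_cases h5 : φ c0 x.1 ∈ M
      · tauto
      · tauto
    · tauto
  have h4 : Disjoint (Ball H v z ∩ XA A H ∩ labS A (φ c0) U) (Rout H v φ S c0 U z) := by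
    rw [Finset.disjoint_left]
    intro x hx hx'
    unfold Rout at hx'
    simp only [Finset.mem_inter, Finset.mem_sdiff] at hx hx'
    exact hx'.1.2 hx.1.1
  have h5 := Finset.card_le_card h3
  rw [Finset.card_union_of_disjoint h4, h1] at h5
  have h6 := le_trans h5 (le_trans (Finset.card_union_le _ _)
      (Nat.add_le_add_left (Finset.card_union_le _ _) _))
  rw [h2] at h6
  have h7 : ((p.w * U.card + (Rout H v φ S c0 U z).card : ℕ) : ℝ) ≤
    (((((XA A H ∩ labS A (φ c0) U) \ S c0).card + ((S c0 ∩ labS A (φ c0) M ∩ Ball H v z).card +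
      p.w * (U \ M).card)) : ℕ) : ℝ) := by exact_mod_cast h6
  push_cast at h7
  linarith

theorem Ep_XA (hS : Ind p H v T φ S) (z : P × A) (i : Bool) : Ep H v S c0 z i ⊆ XA A H :=
  fun x hx => Est_XA hS i (Finset.mem_sdiff.1 hx).1

theorem Ep_disj (z : P × A) (i : Bool) : Disjoint (Ep H v S c0 z i) (Nb H v i z) :=
  Finset.sdiff_disjoint

theorem Ep_card (hE : ∀ i, 2 * (Est S c0 i).card ≤ p.c ^ 6 * p.q) (z : P × A) (i : Bool) :
    2 * ((Ep H v S c0 z i).card : ℝ) ≤ (p.c : ℝ) ^ 6 * p.q := by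
  have h1 : (Ep H v S c0 z i).card ≤ (Est S c0 i).card :=
    Finset.card_le_card Finset.sdiff_subset
  have h2 := hE i
  have h3 : 2 * (Ep H v S c0 z i).card ≤ p.c ^ 6 * p.q := by omega
  exact_mod_cast h3

/-- step B -/
theorem stepB (hP : PPr p H v T MM (φ c0)) (hS : Ind p H v T φ S)
    (hE : ∀ i, 2 * (Est S c0 i).card ≤ p.c ^ 6 * p.q)
    {U M : Finset V} (hMM : M ∈ MM) (hMd : M.card = p.d) {del : ℕ} (hU : U.card + del = p.d)
    (hUM : (U \ M).card ≤ p.K * del) (z : P × A) (i : Bool) :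
    (1 / 2 : ℝ) * p.rho * ((Ep H v S c0 z i).card : ℝ) ≤
      ((Rout H v φ S c0 U z).card : ℝ) + (1 / 4) * (p.B * p.w * del) := by
  have hcpos := n_cpos p
  have hc := n_c p
  have hc1 := n_c1 p
  have hq := n_qpos p
  have hρ := n_rho_pos p
  have hwd := n_wd p
  have hBpos := n_Bpos p
  set E' := Ep H v S c0 z i with hE'
  have hEc := Ep_card (H := H) (v := v) hE z i
  rw [← hE'] at hEc
  -- (P2)
  have hp2 := hP.p2 i E' M (Ep_XA hS z i) (by
    have h1 : 1000 * ((E'.card : ℕ) : ℝ) ≤ (p.q : ℝ) * p.B := by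
      have h2 : (p.c : ℝ) ^ 7 ≤ p.B := le_trans (pow_le_pow_right₀ hc1 (by norm_num)) (n_B p)
      have h3 : 500 * (p.c : ℝ) ^ 6 ≤ p.B := by
        refine le_trans ?_ h2
        have h4 : (p.c : ℝ) ^ 7 = p.c * (p.c : ℝ) ^ 6 := by ring
        rw [h4]
        exact mul_le_mul_of_nonneg_right (le_trans (by norm_num) hc) (pow_pos hcpos 6).le
      calc 1000 * (E'.card : ℝ) = 500 * (2 * (E'.card : ℝ)) := by ring
        _ ≤ 500 * ((p.c : ℝ) ^ 6 * p.q) := mul_le_mul_of_nonneg_left hEc (by norm_num)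
        _ = p.q * (500 * (p.c : ℝ) ^ 6) := by ring
        _ ≤ p.q * p.B := mul_le_mul_of_nonneg_left h3 hq.le
    exact_mod_cast h1) hMM
  -- inclusion
  have hsub : NbS H v i E' ∩ XA A H ∩ labS A (φ c0) M ⊆
      Rout H v φ S c0 U z ∪ ((E'.biUnion (fun y => lin H v (NL H i y) ∩ Gam H v z ∩ XA A H ∩
        labS A (φ c0) M)) ∪ (NbS H v i E' ∩ XA A H ∩ labS A (φ c0) (M \ U))) := by
    intro x hx
    simp only [Finset.mem_inter, mem_labS] at hx
    obtain ⟨⟨hx1, hx2⟩, hx3⟩ := hx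
    have hxS : x ∉ S c0 := by
      apply NbS_Est_disj hS i
      rw [mem_NbS] at hx1 ⊢
      obtain ⟨y, hy, hyx⟩ := hx1
      rw [hE'] at hy
      exact ⟨y, (Finset.mem_sdiff.1 hy).1, hyx⟩
    rw [Finset.mem_union, Finset.mem_union]
    by_cases hU' : φ c0 x.1 ∈ U
    · by_cases hB : x ∈ Ball H v z
      · right; left
        rw [mem_NbS] at hx1
        obtain ⟨y, hy, hyx⟩ := hx1
        rw [Finset.mem_biUnion]
        refine ⟨y, hy, ?_⟩
        simp only [Finset.mem_inter, mem_labS, mem_lin]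
        refine ⟨⟨⟨hyx, ?_⟩, hx2⟩, hx3⟩
        unfold Ball at hB
        rw [Finset.mem_insert] at hB
        rcases hB with h | h
        · exfalso
          rw [h] at hyx
          rw [hE'] at hy
          unfold Ep at hy
          rw [Finset.mem_sdiff] at hy
          apply hy.2
          rw [mem_Nb_comm, mem_Nb]
          exact hyx
        · exact h
      · left
        unfold Rout
        simp only [Finset.mem_inter, Finset.mem_sdiff, mem_labS]
        exact ⟨⟨⟨hx2, hU'⟩, hB⟩, hxS⟩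
    · right; right
      simp only [Finset.mem_inter, mem_labS, Finset.mem_sdiff]
      exact ⟨⟨hx1, hx2⟩, hx3, hU'⟩
  have h1 := le_trans (Finset.card_le_card hsub) (le_trans (Finset.card_union_le _ _)
      (Nat.add_le_add_left (Finset.card_union_le _ _) _))
  have h2 : (((E'.biUnion (fun y => lin H v (NL H i y) ∩ Gam H v z ∩ XA A H ∩
        labS A (φ c0) M))).card : ℝ) ≤ (E'.card : ℝ) * (p.rho / p.c) := by
    have h3 : (((E'.biUnion (fun y => lin H v (NL H i y) ∩ Gam H v z ∩ XA A H ∩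
        labS A (φ c0) M))).card : ℝ) ≤
        ∑ y ∈ E', ((lin H v (NL H i y) ∩ Gam H v z ∩ XA A H ∩ labS A (φ c0) M).card : ℝ) := by
      exact_mod_cast Finset.card_biUnion_le
    refine le_trans h3 ?_
    calc ∑ y ∈ E', ((lin H v (NL H i y) ∩ Gam H v z ∩ XA A H ∩ labS A (φ c0) M).card : ℝ) ≤
        ∑ y ∈ E', p.rho / p.c := by
          apply Finset.sum_le_sum
          intro y hy
          apply hP.p4 _ _ _ _ hMM
          intro hon
          rw [hE'] at hy
          unfold Ep at hy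
          rw [Finset.mem_sdiff] at hy
          apply hy.2
          rw [mem_Nb_comm, mem_Nb]
          exact hon
      _ = _ := by rw [Finset.sum_const, nsmul_eq_mul]
  have h3 := hP.p3 i E' (M \ U) (Ep_XA hS z i)
  have h4 : ((NbS H v i E' ∩ XA A H ∩ labS A (φ c0) M).card : ℝ) ≤
      ((Rout H v φ S c0 U z).card : ℝ) + ((((E'.biUnion (fun y => lin H v (NL H i y) ∩
        Gam H v z ∩ XA A H ∩ labS A (φ c0) M))).card : ℝ) +
        ((NbS H v i E' ∩ XA A H ∩ labS A (φ c0) (M \ U)).card : ℝ)) := by exact_mod_cast h1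
  have hMU : ((M \ U).card : ℝ) ≤ ((p.K : ℝ) + 1) * del := by
    exact_mod_cast MU_le hMd hU hUM
  -- 2 q |E'| |M \ U| / N ≤ c^6 w |M \ U|
  have hw := n_w p
  have hwpos := n_wpos p
  have hNpos := n_Npos p
  have h5 : 2 * (p.q : ℝ) * E'.card * ((M \ U).card : ℝ) / p.N ≤
      (p.c : ℝ) ^ 6 * p.w * ((M \ U).card : ℝ) := by
    rw [hw]
    have e1 : 2 * (p.q : ℝ) * E'.card * ((M \ U).card : ℝ) / p.N =
        (2 * (E'.card : ℝ)) * (p.q * ((M \ U).card : ℝ) / p.N) := by ring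
    have e2 : (p.c : ℝ) ^ 6 * ((p.q : ℝ) ^ 2 / p.N) * ((M \ U).card : ℝ) =
        ((p.c : ℝ) ^ 6 * p.q) * (p.q * ((M \ U).card : ℝ) / p.N) := by ring
    rw [e1, e2]
    exact mul_le_mul_of_nonneg_right hEc (by positivity)
  have hLam := n_Lam p
  have hLam0 : (0 : ℝ) ≤ p.Lam := by positivity
  have h8L : 8 * (p.Lam : ℝ) ≤ p.c := by linarith
  have h6 : 8 * (p.B : ℝ) * (E'.card + ((M \ U).card : ℝ)) * p.Lam ≤
      (p.rho / p.c) * E'.card + p.B * p.c * ((M \ U).card : ℝ) := by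
    have e1 : (p.B : ℝ) * p.c ≤ p.rho / p.c := by
      rw [le_div_iff₀ hcpos]
      have := n_rho' p (i := 2) (j := 1) (by norm_num) (by norm_num)
      calc (p.B : ℝ) * p.c * p.c = (p.c : ℝ) ^ 2 * (p.B : ℝ) ^ 1 := by ring
        _ ≤ p.rho := this
    have e2 : 8 * (p.B : ℝ) * (E'.card + ((M \ U).card : ℝ)) * p.Lam =
        (p.B * (8 * (p.Lam : ℝ))) * E'.card + (p.B * (8 * (p.Lam : ℝ))) * ((M \ U).card : ℝ) := by
      ring
    rw [e2]
    have e3 : (p.B : ℝ) * (8 * (p.Lam : ℝ)) ≤ p.B * p.c := mul_le_mul_of_nonneg_left h8L hBpos.le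
    have e4 : (p.B * (8 * (p.Lam : ℝ))) * E'.card ≤ (p.rho / p.c) * E'.card :=
      mul_le_mul_of_nonneg_right (le_trans e3 e1) (by positivity)
    have e5 : (p.B * (8 * (p.Lam : ℝ))) * ((M \ U).card : ℝ) ≤ p.B * p.c * ((M \ U).card : ℝ) :=
      mul_le_mul_of_nonneg_right e3 (by positivity)
    linarith
  -- (c^6 w + B c) (K+1) del ≤ (1/4) B w del
  have h7 : ((p.c : ℝ) ^ 6 * p.w + p.B * p.c) * ((M \ U).card : ℝ) ≤
      (1 / 4) * (p.B * p.w * del) := by
    have hK0 := n_K0 p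
    have e1 : ((p.c : ℝ) ^ 6 * p.w + p.B * p.c) * ((M \ U).card : ℝ) ≤
        ((p.c : ℝ) ^ 6 * p.w + p.B * p.c) * (((p.K : ℝ) + 1) * del) :=
      mul_le_mul_of_nonneg_left hMU (by positivity)
    refine le_trans e1 ?_
    have e2 : (p.c : ℝ) ^ 6 * (p.K + 1) ≤ (1 / 8) * p.B := by
      have hBK := n_BK p
      have e3 : 8 * (p.c : ℝ) ^ 6 ≤ (p.c : ℝ) ^ 15 := by
        calc 8 * (p.c : ℝ) ^ 6 ≤ p.c * (p.c : ℝ) ^ 6 :=
              mul_le_mul_of_nonneg_right (le_trans (by norm_num) hc) (pow_pos hcpos 6).le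
          _ = (p.c : ℝ) ^ 7 := by ring
          _ ≤ (p.c : ℝ) ^ 15 := pow_le_pow_right₀ hc1 (by norm_num)
      nlinarith
    have e3 : (p.c : ℝ) * (p.K + 1) ≤ (1 / 8) * p.w := by
      have hwK := n_wK p
      have e4 : 8 * (p.c : ℝ) ≤ (p.c : ℝ) ^ 10 := by
        calc 8 * (p.c : ℝ) ≤ p.c * (p.c : ℝ) :=
              mul_le_mul_of_nonneg_right (le_trans (by norm_num) hc) hcpos.le
          _ = (p.c : ℝ) ^ 2 := by ring
          _ ≤ (p.c : ℝ) ^ 10 := pow_le_pow_right₀ hc1 (by norm_num)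
      nlinarith
    have hdel : (0 : ℝ) ≤ (del : ℝ) := by positivity
    have e5 : ((p.c : ℝ) ^ 6 * p.w + p.B * p.c) * (((p.K : ℝ) + 1) * (del : ℝ)) =
        ((p.c : ℝ) ^ 6 * (p.K + 1)) * ((p.w : ℝ) * (del : ℝ)) +
          ((p.c : ℝ) * (p.K + 1)) * ((p.B : ℝ) * (del : ℝ)) := by ring
    have e6 : ((p.c : ℝ) ^ 6 * (p.K + 1)) * ((p.w : ℝ) * (del : ℝ)) ≤
        ((1 / 8) * (p.B : ℝ)) * ((p.w : ℝ) * (del : ℝ)) :=
      mul_le_mul_of_nonneg_right e2 (by positivity)
    have e7 : ((p.c : ℝ) * (p.K + 1)) * ((p.B : ℝ) * (del : ℝ)) ≤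
        ((1 / 8) * (p.w : ℝ)) * ((p.B : ℝ) * (del : ℝ)) :=
      mul_le_mul_of_nonneg_right e3 (by positivity)
    have e8 : ((1 / 8) * (p.B : ℝ)) * ((p.w : ℝ) * (del : ℝ)) +
        ((1 / 8) * (p.w : ℝ)) * ((p.B : ℝ) * (del : ℝ)) =
        (1 / 4) * ((p.B : ℝ) * p.w * (del : ℝ)) := by ring
    linarith
  have h8 : 2 * (p.rho / p.c) * E'.card ≤ (1 / 4) * p.rho * E'.card := by
    apply mul_le_mul_of_nonneg_right _ (by positivity)
    rw [mul_div_assoc', div_le_iff₀ hcpos]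
    nlinarith
  have h9 : (p.c : ℝ) ^ 6 * p.w * ((M \ U).card : ℝ) + p.B * p.c * ((M \ U).card : ℝ) =
      ((p.c : ℝ) ^ 6 * p.w + p.B * p.c) * ((M \ U).card : ℝ) := by ring
  have h10 : (E'.card : ℝ) * (p.rho / p.c) = (p.rho / p.c) * E'.card := by ring
  have h11 : (3 / 4 : ℝ) * p.rho * E'.card =
      (1 / 2 : ℝ) * p.rho * E'.card + (1 / 4) * p.rho * E'.card := by ring
  have h12 : 2 * (p.rho / p.c) * E'.card = (p.rho / p.c) * E'.card + (p.rho / p.c) * E'.card := by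
    ring
  linarith

end Pool.Agent.helper40.TGS
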