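import Pool.Agent.helper40.TGS.CaseS3

set_option linter.all false
set_option autoImplicit false

/-!
# MP_ce98d8_co: section 10, inequality (A6)
-/

namespace Pool.Agent.helper40.TGS

open Finset Classical
open Pool.Agent.helper11.Tight (nb eo mem_nb)
open Pool.Agent.helper24.TG

variable {P O A V : Type} [Fintype P] [DecidableEq P] [Fintype O] [DecidableEq O]
  [Fintype A] [DecidableEq A] [AddCommGroup A] [Fintype V] [DecidableEq V]

variable {p : Par} {H : Host P O p.q} {v : O → A} {T : SimpleGraph V}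
  {MM : Finset (Finset V)} {φ : Fin p.C → P → V} {S : Fin p.C → Finset (P × A)} {c0 : Fin p.C}

/-- exceptional points of the slice `j` -/
noncomputable def eS (H : Host P O p.q) (v : O → A) (S : Fin p.C → Finset (P × A))
    (c0 : Fin p.C) (z : P × A) (j : Fin p.C) : Finset (P × A) :=
  S j \ Nb H v (p.hf j != p.hf c0) z

/-- missing points of the slice `j` -/
noncomputable def rS (H : Host P O p.q) (v : O → A) (S : Fin p.C → Finset (P × A))
    (c0 : Fin p.C) (z : P × A) (j : Fin p.C) : Finset (P × A) :=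
  (Nb H v (p.hf j != p.hf c0) z ∩ XA A H) \ S j

theorem slice_eq (hS : Ind p H v T φ S) {z : P × A} (hz : Proper H z) (j : Fin p.C) :
    ((S j).card : ℝ) = p.q - ((rS H v S c0 z j).card : ℝ) + ((eS H v S c0 z j).card : ℝ) := by
  have h1 := card_Nb_XA (v := v) hz (p.hf j != p.hf c0)
  have h2 := Finset.card_sdiff_add_card_inter (Nb H v (p.hf j != p.hf c0) z ∩ XA A H) (S j)
  have h3 := Finset.card_sdiff_add_card_inter (S j) (Nb H v (p.hf j != p.hf c0) z)
  have h4 : Nb H v (p.hf j != p.hf c0) z ∩ XA A H ∩ S j =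
      S j ∩ Nb H v (p.hf j != p.hf c0) z := by
    ext x
    simp only [Finset.mem_inter]
    constructor
    · rintro ⟨⟨a, b⟩, c⟩
      exact ⟨c, a⟩
    · rintro ⟨a, b⟩
      exact ⟨⟨b, hS.sub j a⟩, a⟩
  rw [h4] at h2
  rw [h1] at h2
  have h5 : ((rS H v S c0 z j).card : ℝ) +
      ((S j ∩ Nb H v (p.hf j != p.hf c0) z).card : ℝ) = p.q := by exact_mod_cast h2
  have h6 : ((eS H v S c0 z j).card : ℝ) +
      ((S j ∩ Nb H v (p.hf j != p.hf c0) z).card : ℝ) = ((S j).card : ℝ) := by exact_mod_cast h3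
  linarith

theorem eS_sub {j : Fin p.C} (hj : j ≠ c0) (z : P × A) :
    eS H v S c0 z j ⊆ Ep H v S c0 z (p.hf j != p.hf c0) := by
  intro x hx
  unfold eS at hx
  unfold Ep
  rw [Finset.mem_sdiff] at hx ⊢
  exact ⟨sub_Est hj hx.1, hx.2⟩

/-- total number of exceptional points -/
noncomputable def Et (H : Host P O p.q) (v : O → A) (S : Fin p.C → Finset (P × A))
    (c0 : Fin p.C) (z : P × A) : ℝ :=
  ((Ep H v S c0 z false).card : ℝ) + ((Ep H v S c0 z true).card : ℝ)

theorem Ep_le_Et (z : P × A) (i : Bool) : ((Ep H v S c0 z i).card : ℝ) ≤ Et H v S c0 z := by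
  unfold Et
  cases i
  · have : (0 : ℝ) ≤ ((Ep H v S c0 z true).card : ℝ) := by positivity
    linarith
  · have : (0 : ℝ) ≤ ((Ep H v S c0 z false).card : ℝ) := by positivity
    linarith

/-- the exceptional copies of (Q4) -/
def bd4 (p : Par) (H : Host P O p.q) (v : O → A) (T : SimpleGraph V) (φ : Fin p.C → P → V)
    (z : P × A) (i : Bool) (E' : Finset (P × A)) (j : Fin p.C) : Prop :=
  ∃ S, S ⊆ E' ∧ S.Nonempty ∧ E'.card ≤ 64 * p.c ^ 3 * S.card ∧ p.c ^ 4 * S.card ≤ p.q ∧
      (conf p H v T (φ j) i z S).card < 4 * S.card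

theorem conf_sub (hS : Ind p H v T φ S) (z : P × A) (j : Fin p.C) :
    conf p H v T (φ j) (p.hf j != p.hf c0) z (eS H v S c0 z j) ⊆ rS H v S c0 z j := by
  intro u hu
  unfold conf at hu
  rw [Finset.mem_filter] at hu
  obtain ⟨h1, y, hy, h2, h3⟩ := hu
  unfold rS
  rw [Finset.mem_sdiff]
  refine ⟨h1, fun h4 => h3 ?_⟩
  unfold eS at hy
  rw [Finset.mem_sdiff] at hy
  exact hS.own j u h4 y hy.1 h2

/-- the inequality for one copy -/
theorem one_copy (hS : Ind p H v T φ S) {z : P × A} (hz : Proper H z)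
    (hfull : ∀ j, j ≠ c0 → Fl p H v T φ S c0 j →
      p.c ^ 4 * (eS H v S c0 z j).card ≤ p.q) {j : Fin p.C} (hj : j ≠ c0) :
    (1 + 1 / (p.c : ℝ) ^ 4) * ((eS H v S c0 z j).card : ℝ) ≤
      (if Fl p H v T φ S c0 j then (1 / 2 : ℝ) * ((rS H v S c0 z j).card : ℝ)
        else ((rS H v S c0 z j).card : ℝ)) +
      (if ¬ Gd p H v T φ S c0 j then 2 * Et H v S c0 z else 0) +
      (if bd4 p H v T φ z (p.hf j != p.hf c0) (Ep H v S c0 z (p.hf j != p.hf c0)) j
        then 2 * Et H v S c0 z else 0) +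
      2 * Et H v S c0 z / (64 * (p.c : ℝ) ^ 3) := by
  have hcpos := n_cpos p
  have hc := n_c p
  have hc1 := n_c1 p
  have hq := n_qpos p
  have hc4 : (0 : ℝ) < (p.c : ℝ) ^ 4 := pow_pos hcpos 4
  have hc3 : (0 : ℝ) < (p.c : ℝ) ^ 3 := pow_pos hcpos 3
  set e : ℝ := ((eS H v S c0 z j).card : ℝ) with he
  set r : ℝ := ((rS H v S c0 z j).card : ℝ) with hr
  have he0 : 0 ≤ e := by positivity
  have hr0 : 0 ≤ r := by positivity
  have hEt0 : 0 ≤ Et H v S c0 z := by unfold Et; positivity
  have hhr0 : 0 ≤ (1 / 2 : ℝ) * r := mul_nonneg (by norm_num) hr0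
  have heE : e ≤ ((Ep H v S c0 z (p.hf j != p.hf c0)).card : ℝ) := by
    rw [he]
    exact_mod_cast Finset.card_le_card (eS_sub hj z)
  have heEt : e ≤ Et H v S c0 z := le_trans heE (Ep_le_Et z _)
  have h14 : 1 / (p.c : ℝ) ^ 4 ≤ 1 := by
    rw [div_le_one hc4]
    exact one_le_pow₀ hc1
  have h2e : (1 + 1 / (p.c : ℝ) ^ 4) * e ≤ 2 * e := by nlinarith
  have h2Et : 2 * e ≤ 2 * Et H v S c0 z := by linarith
  have hlast : 0 ≤ 2 * Et H v S c0 z / (64 * (p.c : ℝ) ^ 3) := by positivity
  have hsl := slice_eq (c0 := c0) hS hz j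
  rw [← he, ← hr] at hsl
  have hif1 : 0 ≤ (if Fl p H v T φ S c0 j then (1 / 2 : ℝ) * r else r) := by
    split_ifs
    · positivity
    · exact hr0
  have hif3 : 0 ≤ (if bd4 p H v T φ z (p.hf j != p.hf c0)
      (Ep H v S c0 z (p.hf j != p.hf c0)) j then 2 * Et H v S c0 z else 0) := by
    split_ifs
    · positivity
    · exact le_rfl
  by_cases hG : Gd p H v T φ S c0 j
  · rw [if_neg (not_not.2 hG)]
    by_cases hF : Fl p H v T φ S c0 j
    · rw [if_pos hF]
      by_cases h4 : bd4 p H v T φ z (p.hf j != p.hf c0) (Ep H v S c0 z (p.hf j != p.hf c0)) j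
      · rw [if_pos h4]
        have hhr := hhr0
        linarith
      · rw [if_neg h4]
        by_cases hsm : (Ep H v S c0 z (p.hf j != p.hf c0)).card ≤
            64 * p.c ^ 3 * (eS H v S c0 z j).card
        · by_cases hne : (eS H v S c0 z j).Nonempty
          · have h5 : ¬ (conf p H v T (φ j) (p.hf j != p.hf c0) z (eS H v S c0 z j)).card <
                4 * (eS H v S c0 z j).card := by
              intro h6
              exact h4 ⟨_, eS_sub hj z, hne, hsm, hfull j hj hF, h6⟩
            push Not at h5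
            have h6 := le_trans h5 (Finset.card_le_card (conf_sub (c0 := c0) hS z j))
            have h7 : 4 * e ≤ r := by rw [he, hr]; exact_mod_cast h6
            linarith
          · rw [Finset.not_nonempty_iff_eq_empty] at hne
            have h9 : e = 0 := by rw [he, hne, Finset.card_empty, Nat.cast_zero]
            rw [h9]
            have hhr := hhr0
            linarith
        · push Not at hsm
          have h5 : 64 * (p.c : ℝ) ^ 3 * e ≤
              ((Ep H v S c0 z (p.hf j != p.hf c0)).card : ℝ) := by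
            rw [he]
            exact_mod_cast hsm.le
          have h6 : 2 * e ≤ 2 * Et H v S c0 z / (64 * (p.c : ℝ) ^ 3) := by
            rw [le_div_iff₀ (by positivity)]
            have h7 := Ep_le_Et (H := H) (v := v) (S := S) (c0 := c0) z (p.hf j != p.hf c0)
            linarith
          have hhr := hhr0
          linarith
    · rw [if_neg hF]
      -- not full: large deficit
      have h5 : (p.q : ℝ) / p.c ≤ (p.q : ℝ) - ((S j).card : ℝ) := by
        by_contra hcon
        push Not at hcon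
        exact hF ⟨hG, hcon⟩
      have h6 : e ≤ p.q := by
        have h7 : e ≤ ((S j).card : ℝ) := by
          rw [he]
          exact_mod_cast Finset.card_le_card (Finset.sdiff_subset)
        have h8 : 0 ≤ (p.q : ℝ) / p.c := by positivity
        linarith
      have h7 : 1 / (p.c : ℝ) ^ 4 * e ≤ (p.q : ℝ) / p.c := by
        have h8 : 1 / (p.c : ℝ) ^ 4 ≤ 1 / (p.c : ℝ) := by
          apply one_div_le_one_div_of_le hcpos
          calc (p.c : ℝ) = (p.c : ℝ) ^ 1 := (pow_one _).symm
            _ ≤ (p.c : ℝ) ^ 4 := pow_le_pow_right₀ hc1 (by norm_num)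
        calc 1 / (p.c : ℝ) ^ 4 * e ≤ 1 / (p.c : ℝ) * p.q := by
              apply mul_le_mul h8 h6 he0 (by positivity)
          _ = (p.q : ℝ) / p.c := by ring
      have h8 : (1 + 1 / (p.c : ℝ) ^ 4) * e = e + 1 / (p.c : ℝ) ^ 4 * e := by ring
      rw [h8]
      linarith
  · rw [if_pos hG]
    linarith

/-- the two polarities of copies have the same number -/
theorem card_pol (c0 : Fin p.C) (i : Bool) :
    (p.C : ℝ) / 2 - 1 ≤
      (((Finset.univ.erase c0).filter (fun j => (p.hf j != p.hf c0) = i)).card : ℝ) := by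
  obtain ⟨a, ha⟩ := p.hCe
  have hhalf : p.C / 2 = a := by omega
  have h1 : ∀ b : Bool, (Finset.univ.filter (fun j : Fin p.C => p.hf j = b)).card = a := by
    have ht : (Finset.univ.filter (fun j : Fin p.C => p.hf j = true)).card = a := by
      have : (Finset.univ.filter (fun j : Fin p.C => p.hf j = true)) =
          (Finset.univ.filter (fun j : Fin p.C => j.val < a)) := by
        ext j
        simp only [Finset.mem_filter, Finset.mem_univ, true_and]
        unfold Par.hf
        rw [decide_eq_true_eq, hhalf]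
      rw [this]
      rw [Fin.card_filter_val_lt]
      omega
    intro b
    cases b
    · have h2 := Finset.card_filter_add_card_filter_not (s := (Finset.univ : Finset (Fin p.C)))
        (fun j => p.hf j = true)
      rw [ht, Finset.card_univ, Fintype.card_fin] at h2
      have h3 : (Finset.univ.filter (fun j : Fin p.C => p.hf j = false)) =
          (Finset.univ.filter (fun j : Fin p.C => ¬ p.hf j = true)) := by
        ext j
        simp
      rw [h3]
      omega
    · exact ht
  have h2 : ∃ b : Bool, ∀ j, (p.hf j != p.hf c0) = i ↔ p.hf j = b := by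
    refine ⟨if i then !(p.hf c0) else p.hf c0, fun j => ?_⟩
    cases i <;> cases h3 : p.hf j <;> cases h4 : p.hf c0 <;> simp
  obtain ⟨b, hb⟩ := h2
  have h3 : (Finset.univ.filter (fun j : Fin p.C => p.hf j = b)).card - 1 ≤
      ((Finset.univ.erase c0).filter (fun j => (p.hf j != p.hf c0) = i)).card := by
    have h4 : (Finset.univ.erase c0).filter (fun j => (p.hf j != p.hf c0) = i) =
        (Finset.univ.filter (fun j : Fin p.C => p.hf j = b)).erase c0 := by
      ext j
      simp only [Finset.mem_filter, Finset.mem_erase, Finset.mem_univ, true_and, and_true, hb]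
    rw [h4]
    exact Finset.pred_card_le_card_erase
  rw [h1 b] at h3
  have h4 : (p.C : ℝ) = a + a := by
    have : p.C = a + a := ha
    exact_mod_cast this
  have h5 : (a : ℝ) ≤ (((Finset.univ.erase c0).filter
      (fun j => (p.hf j != p.hf c0) = i)).card : ℝ) + 1 := by
    have : a ≤ ((Finset.univ.erase c0).filter (fun j => (p.hf j != p.hf c0) = i)).card + 1 := by
      omega
    exact_mod_cast this
  rw [h4]
  linarith

/-- many full copies of each polarity -/
theorem card_full (i : Bool)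
    (hF : (((Finset.univ.erase c0).filter (fun j => ¬ Fl p H v T φ S c0 j)).card : ℝ) ≤
        2 * p.C / p.c) :
    (p.C : ℝ) / 3 ≤ (((Finset.univ.erase c0).filter
      (fun j => (p.hf j != p.hf c0) = i ∧ Fl p H v T φ S c0 j)).card : ℝ) := by
  have hcpos := n_cpos p
  have hc := n_c p
  have h1 := card_pol (p := p) c0 i
  have h2 : (Finset.univ.erase c0).filter (fun j => (p.hf j != p.hf c0) = i) ⊆
      ((Finset.univ.erase c0).filter (fun j => (p.hf j != p.hf c0) = i ∧ Fl p H v T φ S c0 j)) ∪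
      ((Finset.univ.erase c0).filter (fun j => ¬ Fl p H v T φ S c0 j)) := by
    intro j hj
    rw [Finset.mem_filter] at hj
    rw [Finset.mem_union, Finset.mem_filter, Finset.mem_filter]
    by_cases h : Fl p H v T φ S c0 j
    · exact Or.inl ⟨hj.1, hj.2, h⟩
    · exact Or.inr ⟨hj.1, h⟩
  have h3 := le_trans (Finset.card_le_card h2) (Finset.card_union_le _ _)
  have h4 : (((Finset.univ.erase c0).filter (fun j => (p.hf j != p.hf c0) = i)).card : ℝ) ≤
      (((Finset.univ.erase c0).filter
        (fun j => (p.hf j != p.hf c0) = i ∧ Fl p H v T φ S c0 j)).card : ℝ) +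
      (((Finset.univ.erase c0).filter (fun j => ¬ Fl p H v T φ S c0 j)).card : ℝ) := by
    exact_mod_cast h3
  -- C large
  have hC : (p.c : ℝ) ^ 3 ≤ p.C := by
    refine le_trans ?_ (n_C1 p)
    have hρ1 : (1 : ℝ) ≤ p.rho := by
      have := n_rho' p (i := 0) (j := 0) (by norm_num) (by norm_num)
      simpa using this
    have : (0 : ℝ) < (p.c : ℝ) ^ 3 := pow_pos hcpos 3
    nlinarith
  have hC2 : (10 : ℝ) ^ 6 ≤ p.C := by
    refine le_trans hc (le_trans ?_ hC)
    calc (p.c : ℝ) = (p.c : ℝ) ^ 1 := (pow_one _).symm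
      _ ≤ (p.c : ℝ) ^ 3 := pow_le_pow_right₀ (n_c1 p) (by norm_num)
  have h5 : 2 * (p.C : ℝ) / p.c ≤ p.C / 100 := by
    rw [div_le_div_iff₀ hcpos (by norm_num)]
    nlinarith
  linarith

/-- the points of the main slice in the ball -/
theorem QM_bound (hPr : MPr p H v T MM φ) (hS : Ind p H v T φ S) {M : Finset V} (hMM : M ∈ MM)
    {z : P × A} (hz0 : z ∉ S c0)
    (hF : (((Finset.univ.erase c0).filter (fun j => ¬ Fl p H v T φ S c0 j)).card : ℝ) ≤
        2 * p.C / p.c) :
    (1 + 1 / (p.c : ℝ) ^ 4) * ((S c0 ∩ labS A (φ c0) M ∩ Ball H v z).card : ℝ) ≤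
      ∑ j ∈ (Finset.univ.erase c0).filter (Fl p H v T φ S c0),
        (1 / 2 : ℝ) * ((rS H v S c0 z j).card : ℝ) := by
  have hcpos := n_cpos p
  have hc := n_c p
  have hc1 := n_c1 p
  have hρ := n_rho_pos p
  have hCpos := n_Cpos p
  set Q := S c0 ∩ labS A (φ c0) M ∩ Ball H v z with hQ
  -- the lifted lines through z meeting Q
  set LQ : Finset (P × A) := Finset.univ.filter (fun L => onL H v L z ∧ ∃ x ∈ Q, onL H v L x)
    with hLQ
  have hQsub : Q ⊆ LQ.biUnion (fun L => lin H v L ∩ XA A H ∩ labS A (φ c0) M) := by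
    intro x hx
    have hx' := hx
    rw [hQ, Finset.mem_inter, Finset.mem_inter] at hx'
    have hxz : x ≠ z := by
      rintro rfl
      exact hz0 hx'.1.1
    have hG : x ∈ Gam H v z := by
      have := hx'.2
      unfold Ball at this
      rw [Finset.mem_insert] at this
      rcases this with h | h
      · exact absurd h hxz
      · exact h
    rw [mem_Gam] at hG
    obtain ⟨-, L, h1, h2⟩ := hG
    rw [Finset.mem_biUnion]
    refine ⟨L, ?_, ?_⟩
    · rw [hLQ, Finset.mem_filter]
      exact ⟨Finset.mem_univ _, h1, x, hx, h2⟩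
    · rw [Finset.mem_inter, Finset.mem_inter, mem_lin]
      exact ⟨⟨h2, hS.sub c0 hx'.1.1⟩, hx'.1.2⟩
  have hQle : (Q.card : ℝ) ≤ (LQ.card : ℝ) * (3 * p.rho) := by
    have h1 : (Q.card : ℝ) ≤ ∑ L ∈ LQ, ((lin H v L ∩ XA A H ∩ labS A (φ c0) M).card : ℝ) := by
      exact_mod_cast le_trans (Finset.card_le_card hQsub) Finset.card_biUnion_le
    refine le_trans h1 ?_
    calc ∑ L ∈ LQ, ((lin H v L ∩ XA A H ∩ labS A (φ c0) M).card : ℝ) ≤
          ∑ L ∈ LQ, (3 * p.rho) := by
            apply Finset.sum_le_sum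
            intro L _
            exact lin_lab_le (hPr.one c0).p1 v _ (Or.inl hMM)
      _ = _ := by rw [Finset.sum_const, nsmul_eq_mul]
  -- the centres
  have hcen : ∀ i : Bool, ∀ j, j ≠ c0 → (p.hf j != p.hf c0) = i →
      ((LQ.filter (fun L => cen H i L ∈ XA A H)).card : ℝ) ≤ ((rS H v S c0 z j).card : ℝ) := by
    intro i j hj hji
    have h1 : (LQ.filter (fun L => cen H i L ∈ XA A H)).card ≤ (rS H v S c0 z j).card := by
      apply Finset.card_le_card_of_injOn (cen H i)
      · intro L hL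
        rw [Finset.mem_coe, Finset.mem_filter, hLQ, Finset.mem_filter] at hL
        obtain ⟨⟨-, hLz, x, hx, hLx⟩, hLX⟩ := hL
        rw [Finset.mem_coe]
        unfold rS
        rw [Finset.mem_sdiff, Finset.mem_inter, hji]
        refine ⟨⟨cen_mem_Nb i hLz, hLX⟩, fun hcS => ?_⟩
        rw [hQ, Finset.mem_inter, Finset.mem_inter] at hx
        refine Nb_disj hS hj hcS ?_ hx.1.1
        rw [hji, mem_Nb, NL_cen]
        exact hLx
      · intro L _ L' _ h
        exact cen_inj H i h
    exact_mod_cast h1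
  have hcov : LQ ⊆ (LQ.filter (fun L => cen H false L ∈ XA A H)) ∪
      (LQ.filter (fun L => cen H true L ∈ XA A H)) := by
    intro L hL
    by_contra hcon
    rw [Finset.mem_union, not_or] at hcon
    have h1 : H.inc (H.pi false L.1) H.linf := by
      by_contra h
      exact hcon.1 (by rw [Finset.mem_filter]; exact ⟨hL, by rw [mem_XA]; exact h⟩)
    have h2 : H.inc (H.pi true L.1) H.linf := by
      by_contra h
      exact hcon.2 (by rw [Finset.mem_filter]; exact ⟨hL, by rw [mem_XA]; exact h⟩)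
    rw [hLQ, Finset.mem_filter] at hL
    obtain ⟨-, -, x, hx, hLx⟩ := hL
    rw [hQ, Finset.mem_inter, Finset.mem_inter] at hx
    have hxX := hS.sub c0 hx.1.1
    rw [mem_XA] at hxX
    have hLne : L.1 ≠ H.linf := by
      intro h
      exact hxX (h ▸ hLx.1)
    -- pi_i linf lies on L
    have h3 : ∀ i, H.inc (H.pi i L.1) H.linf → H.inc (H.pi i H.linf) L.1 := by
      intro i h
      have h4 : H.inc (H.pi i L.1) (H.pi i (H.pi i H.linf)) := by rw [H.pi_pi]; exact h
      have h5 := H.pi_inc i _ _ h4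
      rw [H.pi_pi] at h5
      exact h5
    exact hLne (H.uniq _ _ _ _ H.pi_ne (h3 false h1) (h3 true h2) (H.pi_linf false)
      (H.pi_linf true))
  have hcov2 : (LQ.card : ℝ) ≤ ((LQ.filter (fun L => cen H false L ∈ XA A H)).card : ℝ) +
      ((LQ.filter (fun L => cen H true L ∈ XA A H)).card : ℝ) := by
    exact_mod_cast le_trans (Finset.card_le_card hcov) (Finset.card_union_le _ _)
  -- sums over full copies
  have hsum : ∀ i : Bool, (p.C : ℝ) / 3 * ((LQ.filter (fun L => cen H i L ∈ XA A H)).card : ℝ) ≤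
      ∑ j ∈ ((Finset.univ.erase c0).filter
        (fun j => (p.hf j != p.hf c0) = i ∧ Fl p H v T φ S c0 j)),
        ((rS H v S c0 z j).card : ℝ) := by
    intro i
    have h1 := card_full i hF
    calc (p.C : ℝ) / 3 * ((LQ.filter (fun L => cen H i L ∈ XA A H)).card : ℝ) ≤
          (((Finset.univ.erase c0).filter
            (fun j => (p.hf j != p.hf c0) = i ∧ Fl p H v T φ S c0 j)).card : ℝ) *
            ((LQ.filter (fun L => cen H i L ∈ XA A H)).card : ℝ) :=
          mul_le_mul_of_nonneg_right h1 (by positivity)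
      _ = ∑ j ∈ ((Finset.univ.erase c0).filter
            (fun j => (p.hf j != p.hf c0) = i ∧ Fl p H v T φ S c0 j)),
            ((LQ.filter (fun L => cen H i L ∈ XA A H)).card : ℝ) := by
          rw [Finset.sum_const, nsmul_eq_mul]
      _ ≤ _ := by
          apply Finset.sum_le_sum
          intro j hj
          rw [Finset.mem_filter, Finset.mem_erase] at hj
          exact hcen i j hj.1.1 hj.2.1
  have hdis : Disjoint ((Finset.univ.erase c0).filter
        (fun j => (p.hf j != p.hf c0) = false ∧ Fl p H v T φ S c0 j))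
      ((Finset.univ.erase c0).filter
        (fun j => (p.hf j != p.hf c0) = true ∧ Fl p H v T φ S c0 j)) := by
    rw [Finset.disjoint_left]
    intro j h1 h2
    rw [Finset.mem_filter] at h1 h2
    rw [h1.2.1] at h2
    exact Bool.false_ne_true h2.2.1
  have hun : ((Finset.univ.erase c0).filter
        (fun j => (p.hf j != p.hf c0) = false ∧ Fl p H v T φ S c0 j)) ∪
      ((Finset.univ.erase c0).filter
        (fun j => (p.hf j != p.hf c0) = true ∧ Fl p H v T φ S c0 j)) =
      (Finset.univ.erase c0).filter (Fl p H v T φ S c0) := by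
    ext j
    rw [Finset.mem_union, Finset.mem_filter, Finset.mem_filter, Finset.mem_filter]
    cases (p.hf j != p.hf c0) <;> simp
  have htot : (p.C : ℝ) / 3 * (LQ.card : ℝ) ≤
      ∑ j ∈ (Finset.univ.erase c0).filter (Fl p H v T φ S c0), ((rS H v S c0 z j).card : ℝ) := by
    rw [← hun, Finset.sum_union hdis]
    have h1 := hsum false
    have h2 := hsum true
    have h3 : (p.C : ℝ) / 3 * (LQ.card : ℝ) ≤ (p.C : ℝ) / 3 *
        (((LQ.filter (fun L => cen H false L ∈ XA A H)).card : ℝ) +
      ((LQ.filter (fun L => cen H true L ∈ XA A H)).card : ℝ)) :=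
      mul_le_mul_of_nonneg_left hcov2 (by positivity)
    linarith
  rw [← Finset.mul_sum]
  set R := ∑ j ∈ (Finset.univ.erase c0).filter (Fl p H v T φ S c0),
    ((rS H v S c0 z j).card : ℝ) with hR
  have hC1 := n_C1 p
  -- c³ ρ /3 LQ ≤ R
  have h1 : (p.c : ℝ) ^ 3 * p.rho / 3 * (LQ.card : ℝ) ≤ R := by
    refine le_trans ?_ htot
    apply mul_le_mul_of_nonneg_right _ (by positivity)
    linarith
  have h2 : (1 + 1 / (p.c : ℝ) ^ 4) * (Q.card : ℝ) ≤ 2 * ((LQ.card : ℝ) * (3 * p.rho)) := by
    have h14 : 1 / (p.c : ℝ) ^ 4 ≤ 1 := by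
      rw [div_le_one (pow_pos hcpos 4)]
      exact one_le_pow₀ hc1
    have hQ0 : (0 : ℝ) ≤ Q.card := by positivity
    nlinarith
  refine le_trans h2 ?_
  have h3 : (36 : ℝ) ≤ (p.c : ℝ) ^ 3 := by
    calc (36 : ℝ) ≤ p.c := le_trans (by norm_num) hc
      _ = (p.c : ℝ) ^ 1 := (pow_one _).symm
      _ ≤ (p.c : ℝ) ^ 3 := pow_le_pow_right₀ hc1 (by norm_num)
  have h4 : 2 * ((LQ.card : ℝ) * (3 * p.rho)) ≤
      1 / 2 * ((p.c : ℝ) ^ 3 * p.rho / 3 * (LQ.card : ℝ)) := by
    have h5 : 0 ≤ p.rho * (LQ.card : ℝ) := by positivity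
    have h6 : 36 * (p.rho * (LQ.card : ℝ)) ≤ (p.c : ℝ) ^ 3 * (p.rho * (LQ.card : ℝ)) :=
      mul_le_mul_of_nonneg_right h3 h5
    have e1 : 2 * ((LQ.card : ℝ) * (3 * p.rho)) = 1 / 6 * (36 * (p.rho * (LQ.card : ℝ))) := by
      ring
    have e2 : 1 / 2 * ((p.c : ℝ) ^ 3 * p.rho / 3 * (LQ.card : ℝ)) =
        1 / 6 * ((p.c : ℝ) ^ 3 * (p.rho * (LQ.card : ℝ))) := by ring
    rw [e1, e2]
    linarith
  linarith

end Pool.Agent.helper40.TGS
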