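import Pool.Agent.helper24.TG.Props

set_option linter.all false
set_option autoImplicit false

/-!
# MP_ce98d8_co: basic geometry of lifted lines
-/

namespace Pool.Agent.helper40.TGS

open Finset Classical
open Pool.Agent.helper11.Tight (nb eo mem_nb)
open Pool.Agent.helper24.TG

variable {P O A V : Type} [Fintype P] [DecidableEq P] [Fintype O] [DecidableEq O]
  [Fintype A] [DecidableEq A] [AddCommGroup A] [Fintype V] [DecidableEq V] {q : ℕ}

/-! ### symmetry -/

theorem onL_NL_comm (H : Host P O q) (v : O → A) (i : Bool) (x y : P × A) :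
    onL H v (NL H i x) y ↔ onL H v (NL H i y) x := by
  have key : ∀ x y : P × A, onL H v (NL H i x) y → onL H v (NL H i y) x := by
    rintro x y ⟨h1, h2⟩
    refine ⟨H.pi_inc i _ _ h1, ?_⟩
    have h3 := H.orb_pi i y.1 (H.pi i x.1) h1
    rw [H.pi_pi] at h3
    show x.2 + y.2 = v (H.orb x.1 (H.pi i y.1))
    rw [h3, add_comm]
    exact h2
  exact ⟨key x y, key y x⟩

/-- the neighbourhood relation is symmetric -/
theorem mem_Nb_comm (H : Host P O q) (v : O → A) (i : Bool) (x y : P × A) :
    y ∈ Nb H v i x ↔ x ∈ Nb H v i y := by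
  rw [mem_Nb, mem_Nb]
  exact onL_NL_comm H v i x y

theorem NL_cen (H : Host P O q) (i : Bool) (L : P × A) : NL H i (cen H i L) = L := by
  unfold NL cen
  simp only [H.pi_pi]

theorem cen_NL (H : Host P O q) (i : Bool) (z : P × A) : cen H i (NL H i z) = z := by
  unfold NL cen
  simp only [H.pi_pi]

theorem NL_inj (H : Host P O q) (i : Bool) {z z' : P × A} (h : NL H i z = NL H i z') :
    z = z' := by
  rw [← cen_NL H i z, h, cen_NL]

theorem cen_inj (H : Host P O q) (i : Bool) {L L' : P × A} (h : cen H i L = cen H i L') :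
    L = L' := by
  rw [← NL_cen H i L, h, NL_cen]

/-- `cen i L` is a neighbour of every point of `L` -/
theorem cen_mem_Nb {H : Host P O q} {v : O → A} (i : Bool) {L z : P × A} (h : onL H v L z) :
    cen H i L ∈ Nb H v i z := by
  rw [mem_Nb_comm, mem_Nb, NL_cen]
  exact h

/-! ### points and lines -/

/-- the point of the lifted line `L` over the type `t` -/
def ptOn (H : Host P O q) (v : O → A) (L : P × A) (t : P) : P × A :=
  (t, v (H.orb t L.1) - L.2)

/-- the lifted line through `x` over the line `l` -/
def lineOn (H : Host P O q) (v : O → A) (x : P × A) (l : P) : P × A :=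
  (l, v (H.orb x.1 l) - x.2)

theorem onL_ptOn {H : Host P O q} {v : O → A} {L : P × A} {t : P} (h : H.inc t L.1) :
    onL H v L (ptOn H v L t) := by
  refine ⟨h, ?_⟩
  show v (H.orb t L.1) - L.2 + L.2 = v (H.orb t L.1)
  rw [sub_add_cancel]

theorem eq_ptOn {H : Host P O q} {v : O → A} {L x : P × A} (h : onL H v L x) :
    x = ptOn H v L x.1 := by
  obtain ⟨h1, h2⟩ := h
  unfold ptOn
  rw [← h2, add_sub_cancel_right]

theorem onL_lineOn {H : Host P O q} {v : O → A} {x : P × A} {l : P} (h : H.inc x.1 l) :
    onL H v (lineOn H v x l) x := by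
  refine ⟨h, ?_⟩
  show x.2 + (v (H.orb x.1 l) - x.2) = v (H.orb x.1 l)
  rw [add_sub_cancel]

theorem eq_lineOn {H : Host P O q} {v : O → A} {L x : P × A} (h : onL H v L x) :
    L = lineOn H v x L.1 := by
  obtain ⟨h1, h2⟩ := h
  unfold lineOn
  rw [← h2, add_sub_cancel_left]

/-- two points of a lifted line with the same type are equal -/
theorem onL_inj {H : Host P O q} {v : O → A} {L x y : P × A} (hx : onL H v L x)
    (hy : onL H v L y) (h : x.1 = y.1) : x = y := by
  rw [eq_ptOn hx, eq_ptOn hy, h]

/-- two lifted lines through a point over the same line are equal -/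
theorem onL_inj' {H : Host P O q} {v : O → A} {L L' x : P × A} (hx : onL H v L x)
    (hy : onL H v L' x) (h : L.1 = L'.1) : L = L' := by
  rw [eq_lineOn hx, eq_lineOn hy, h]

/-- two points of different types are on at most one common lifted line -/
theorem onL_unique {H : Host P O q} {v : O → A} {L L' x y : P × A} (hxy : x.1 ≠ y.1)
    (h1 : onL H v L x) (h2 : onL H v L y) (h3 : onL H v L' x) (h4 : onL H v L' y) :
    L = L' :=
  onL_inj' h1 h3 (H.uniq _ _ _ _ hxy h1.1 h2.1 h3.1 h4.1)

theorem lin_eq_image (H : Host P O q) (v : O → A) (L : P × A) :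
    lin H v L = (Finset.univ.filter (fun t => H.inc t L.1)).image (ptOn H v L) := by
  ext x
  rw [mem_lin, Finset.mem_image]
  constructor
  · intro h
    exact ⟨x.1, by simpa using h.1, (eq_ptOn h).symm⟩
  · rintro ⟨t, ht, rfl⟩
    rw [Finset.mem_filter] at ht
    exact onL_ptOn ht.2

theorem ptOn_injective (H : Host P O q) (v : O → A) (L : P × A) :
    Function.Injective (ptOn H v L) := by
  intro s t h
  exact congrArg Prod.fst h

theorem card_lin (H : Host P O q) (v : O → A) (L : P × A) : (lin H v L).card = q + 1 := by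
  rw [lin_eq_image, Finset.card_image_of_injective _ (ptOn_injective H v L), H.card_line]

theorem card_Nb (H : Host P O q) (v : O → A) (i : Bool) (z : P × A) :
    (Nb H v i z).card = q + 1 := card_lin H v _

/-- the affine part of a set of points on a lifted line, by types -/
theorem card_lin_filter (H : Host P O q) (v : O → A) (L : P × A) (Q : P → Prop)
    [DecidablePred Q] :
    ((lin H v L).filter (fun x => Q x.1)).card =
      (Finset.univ.filter (fun t => H.inc t L.1 ∧ Q t)).card := by
  rw [lin_eq_image, Finset.filter_image,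
    Finset.card_image_of_injective _ (ptOn_injective H v L)]
  congr 1
  ext t
  simp [ptOn]

theorem lin_XA_linf {H : Host P O q} {v : O → A} {L : P × A} (h : L.1 = H.linf) :
    lin H v L ∩ XA A H = ∅ := by
  ext x
  rw [Finset.mem_inter, mem_lin, mem_XA]
  constructor
  · rintro ⟨h1, h2⟩
    exact absurd (h ▸ h1.1) h2
  · intro h
    exact absurd h (Finset.notMem_empty _)

theorem card_inf_pt (H : Host P O q) {l : P} (h : l ≠ H.linf) :
    (Finset.univ.filter (fun t => H.inc t l ∧ H.inc t H.linf)).card = 1 := by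
  obtain ⟨x, hx1, hx2⟩ := H.meet l H.linf h
  rw [Finset.card_eq_one]
  refine ⟨x, ?_⟩
  ext t
  rw [Finset.mem_filter, Finset.mem_singleton]
  constructor
  · rintro ⟨-, h1, h2⟩
    by_contra hne
    exact h (H.uniq t x _ _ hne h1 hx1 h2 hx2)
  · rintro rfl
    exact ⟨Finset.mem_univ _, hx1, hx2⟩

theorem card_lin_XA {H : Host P O q} {v : O → A} {L : P × A} (h : L.1 ≠ H.linf) :
    (lin H v L ∩ XA A H).card = q := by
  have h1 : lin H v L ∩ XA A H = (lin H v L).filter (fun x => ¬ H.inc x.1 H.linf) := by
    ext x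
    rw [Finset.mem_inter, Finset.mem_filter, mem_XA]
  rw [h1, card_lin_filter H v L (fun t => ¬ H.inc t H.linf)]
  have h2 := H.card_line L.1
  have h3 := card_inf_pt H h
  have h4 : (Finset.univ.filter (fun t => H.inc t L.1)).card =
      (Finset.univ.filter (fun t => H.inc t L.1 ∧ H.inc t H.linf)).card +
      (Finset.univ.filter (fun t => H.inc t L.1 ∧ ¬ H.inc t H.linf)).card := by
    rw [← Finset.card_filter_add_card_filter_not (s := Finset.univ.filter (fun t => H.inc t L.1))
      (fun t => H.inc t H.linf), Finset.filter_filter, Finset.filter_filter]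
  omega

theorem card_lin_XA_le (H : Host P O q) (v : O → A) (L : P × A) :
    (lin H v L ∩ XA A H).card ≤ q := by
  by_cases h : L.1 = H.linf
  · rw [lin_XA_linf h]; simp
  · exact (card_lin_XA h).le

/-- the neighbourhood of a proper point has exactly `q` affine points -/
theorem card_Nb_XA {H : Host P O q} {v : O → A} {z : P × A} (hz : Proper H z) (i : Bool) :
    (Nb H v i z ∩ XA A H).card = q := card_lin_XA (hz i)

theorem card_Nb_XA_le (H : Host P O q) (v : O → A) (i : Bool) (z : P × A) :
    (Nb H v i z ∩ XA A H).card ≤ q := card_lin_XA_le H v _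

/-- an affine point is proper -/
theorem proper_of_XA {H : Host P O q} {z : P × A} (h : z ∈ XA A H) : Proper H z := by
  intro i hi
  rw [mem_XA] at h
  apply h
  have : z.1 = H.pi i H.linf := by rw [← hi, H.pi_pi]
  rw [this]
  exact H.pi_linf i

/-! ### the ball -/

/-- the line joining two types -/
noncomputable def jl (H : Host P O q) (s t : P) : P :=
  if h : s ≠ t then (H.join s t h).choose else s

theorem jl_spec (H : Host P O q) {s t : P} (h : s ≠ t) :
    H.inc s (jl H s t) ∧ H.inc t (jl H s t) := by
  unfold jl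
  rw [dif_pos h]
  exact (H.join s t h).choose_spec

theorem jl_eq (H : Host P O q) {s t l : P} (h : s ≠ t) (h1 : H.inc s l) (h2 : H.inc t l) :
    l = jl H s t :=
  H.uniq s t _ _ h h1 h2 (jl_spec H h).1 (jl_spec H h).2

/-- the point of the ball of `z` over the type `t` -/
noncomputable def bp (H : Host P O q) (v : O → A) (z : P × A) (t : P) : P × A :=
  if t = z.1 then z else ptOn H v (lineOn H v z (jl H z.1 t)) t

theorem bp_fst (H : Host P O q) (v : O → A) (z : P × A) (t : P) : (bp H v z t).1 = t := by
  unfold bp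
  by_cases h : t = z.1
  · rw [if_pos h, h]
  · rw [if_neg h]; rfl

theorem mem_Ball {H : Host P O q} {v : O → A} {z x : P × A} :
    x ∈ Ball H v z ↔ x = bp H v z x.1 := by
  unfold Ball
  rw [Finset.mem_insert, mem_Gam]
  constructor
  · rintro (rfl | ⟨hne, L, h1, h2⟩)
    · unfold bp; rw [if_pos rfl]
    · unfold bp
      rw [if_neg (Ne.symm hne)]
      have h3 := jl_eq H hne h1.1 h2.1
      rw [← h3, ← eq_lineOn h1]
      exact eq_ptOn h2
  · intro h
    by_cases h1 : x.1 = z.1
    · left
      rw [h]; unfold bp; rw [if_pos h1]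
    · right
      unfold bp at h
      rw [if_neg h1] at h
      have h2 : z.1 ≠ x.1 := Ne.symm h1
      refine ⟨h2, lineOn H v z (jl H z.1 x.1), onL_lineOn (jl_spec H h2).1, ?_⟩
      have h3 : onL H v (lineOn H v z (jl H z.1 x.1))
          (ptOn H v (lineOn H v z (jl H z.1 x.1)) x.1) := onL_ptOn (jl_spec H h2).2
      rw [← h] at h3
      exact h3

theorem bp_mem (H : Host P O q) (v : O → A) (z : P × A) (t : P) : bp H v z t ∈ Ball H v z := by
  rw [mem_Ball, bp_fst]

theorem Ball_inj {H : Host P O q} {v : O → A} {z x y : P × A} (hx : x ∈ Ball H v z)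
    (hy : y ∈ Ball H v z) (h : x.1 = y.1) : x = y := by
  rw [mem_Ball] at hx hy
  rw [hx, hy, h]

/-- the ball is a transversal: filtered by a property of the types -/
theorem card_Ball_filter (H : Host P O q) (v : O → A) (z : P × A) (Q : P → Prop)
    [DecidablePred Q] :
    ((Ball H v z).filter (fun x => Q x.1)).card = (Finset.univ.filter Q).card := by
  symm
  apply Finset.card_bij (fun t _ => bp H v z t)
  · intro t ht
    rw [Finset.mem_filter] at ht ⊢
    exact ⟨bp_mem H v z t, by rw [bp_fst]; exact ht.2⟩
  · intro s _ t _ h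
    rw [← bp_fst H v z s, h, bp_fst]
  · intro x hx
    rw [Finset.mem_filter] at hx
    exact ⟨x.1, by rw [Finset.mem_filter]; exact ⟨Finset.mem_univ _, hx.2⟩,
      (mem_Ball.1 hx.1).symm⟩

/-- number of affine types with label in `M` -/
theorem card_lab_types {p : Par} {H : Host P O p.q} {φ : P → V} (hb : Bald p H φ)
    (M : Finset V) : (Finset.univ.filter (fun t => t ∈ PA H ∧ φ t ∈ M)).card = p.w * M.card := by
  have h1 : Finset.univ.filter (fun t => t ∈ PA H ∧ φ t ∈ M) =
      M.biUnion (fun u => (PA H).filter (fun t => φ t = u)) := by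
    ext t
    simp only [Finset.mem_filter, Finset.mem_univ, true_and, Finset.mem_biUnion]
    constructor
    · rintro ⟨h1, h2⟩
      exact ⟨_, h2, h1, rfl⟩
    · rintro ⟨u, h1, h2, rfl⟩
      exact ⟨h2, h1⟩
  rw [h1, Finset.card_biUnion]
  · rw [Finset.sum_congr rfl (fun u _ => hb u), Finset.sum_const, smul_eq_mul, mul_comm]
  · intro a _ b _ hab
    rw [Function.onFun, Finset.disjoint_left]
    intro t h2 h3
    rw [Finset.mem_filter] at h2 h3
    exact hab (h2.2.symm.trans h3.2)

/-- the ball has exactly `w |M|` affine points with label in `M` -/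
theorem card_Ball_lab {p : Par} {H : Host P O p.q} {v : O → A} {φ : P → V} (hb : Bald p H φ)
    (z : P × A) (M : Finset V) :
    (Ball H v z ∩ XA A H ∩ labS A φ M).card = p.w * M.card := by
  rw [← card_lab_types hb M, ← card_Ball_filter H v z (fun t => t ∈ PA H ∧ φ t ∈ M)]
  congr 1
  ext x
  rw [Finset.mem_inter, Finset.mem_inter, Finset.mem_filter, mem_XA, mem_labS, mem_PA]
  tauto

/-- number of affine points with label in `M` -/
theorem card_XA_lab {p : Par} {H : Host P O p.q} {φ : P → V} (hb : Bald p H φ)
    (M : Finset V) :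
    (XA A H ∩ labS A φ M).card = Fintype.card A * (p.w * M.card) := by
  rw [← card_lab_types hb M]
  have h1 : XA A H ∩ labS A φ M =
      (Finset.univ.filter (fun t => t ∈ PA H ∧ φ t ∈ M)) ×ˢ (Finset.univ : Finset A) := by
    ext x
    rw [Finset.mem_inter, mem_XA, mem_labS, Finset.mem_product, Finset.mem_filter, mem_PA]
    simp
  rw [h1, Finset.card_product, Finset.card_univ, mul_comm]

/-- every point collinear with `z` is on `N_i(y)` for exactly one neighbour `y` of `z` -/
theorem exists_Nb_of_Gam {H : Host P O q} {v : O → A} (i : Bool) {z x : P × A}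
    (h : x ∈ Gam H v z) : ∃ y ∈ Nb H v i z, x ∈ Nb H v i y ∧ z ∈ Nb H v i y := by
  rw [mem_Gam] at h
  obtain ⟨-, L, h1, h2⟩ := h
  refine ⟨cen H i L, cen_mem_Nb i h1, ?_, ?_⟩
  · rw [mem_Nb, NL_cen]; exact h2
  · rw [mem_Nb, NL_cen]; exact h1

theorem Gam_subset_Ball (H : Host P O q) (v : O → A) (z : P × A) : Gam H v z ⊆ Ball H v z :=
  Finset.subset_insert _ _

/-- number of affine types -/
theorem card_PA (H : Host P O q) : (PA H).card = q ^ 2 := by
  have h1 := H.card_line H.linf
  have h2 := Finset.card_filter_add_card_filter_not (s := (Finset.univ : Finset P))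
    (fun t => H.inc t H.linf)
  rw [h1, Finset.card_univ, H.card_P] at h2
  have h3 : (PA H).card = (Finset.univ.filter (fun t => ¬ H.inc t H.linf)).card := rfl
  omega

theorem card_XA (A : Type) [Fintype A] [DecidableEq A] [AddCommGroup A] (H : Host P O q) :
    (XA A H).card = q ^ 2 * Fintype.card A := by
  have h1 : XA A H = PA H ×ˢ (Finset.univ : Finset A) := by
    ext x
    rw [mem_XA, Finset.mem_product, mem_PA]
    simp
  rw [h1, Finset.card_product, card_PA, Finset.card_univ]

end Pool.Agent.helper40.TGS
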